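import Pool.Agent.H.MP_7596fa_lc.T.TestAbs
import Pool.Agent.H.MP_7596fa_lc.TestConc

/-!
The concrete test ring, three positions.
-/

namespace Pool.Agent.H.MP_7596fa_lc.T

variable (M : Mach) (F : Type*) [Field F]

/-- total degree -/
def deg (l : M.Gen → ℕ) : ℕ := ∑ g, l g

theorem deg_add (l l' : M.Gen → ℕ) : deg M (l + l') = deg M l + deg M l' := by
  unfold deg
  rw [← Finset.sum_add_distrib]
  rfl

theorem deg_sg (g : M.Gen) : deg M (M.sg g) = 1 := by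
  unfold deg Mach.sg
  simp

theorem deg_zero {l : M.Gen → ℕ} (h : deg M l = 0) : l = 0 := by
  unfold deg at h
  funext g
  exact Finset.sum_eq_zero_iff.mp h g (Finset.mem_univ g)

/-- linear part -/
noncomputable def lw1 (l : M.Gen → ℕ) (m n : ℕ) : F :=
  ∑ q, (l (M.gγ q) : F) * M.hh F (q, M.A * m + n)

/-- quadratic part -/
noncomputable def lw2 (l : M.Gen → ℕ) (m n : ℕ) : F :=
  ∑ t : Fin M.nQ × Fin M.A, (l (M.gm t) : F) *
    ((l M.gu : F) * M.hh F (M.tgt t.1 t.2, M.b t.1 t.2 * m + n) +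
     (l M.gu' : F) * M.hh F (M.tgt t.1 t.2, M.A * m + n)) +
  ∑ t : Fin M.nQ × Fin M.A, (l (M.gv t) : F) *
    ((l M.gw : F) * M.hh F (t.1, M.A * m + n + t.2) +
     (l M.gw' : F) * M.hh F (M.tgt t.1 t.2, M.b t.1 t.2 * m + n + M.c t.1 t.2))

/-- the value of a product of letters -/
noncomputable def lw (l : M.Gen → ℕ) (m n : ℕ) : F :=
  if deg M l = 1 then lw1 M F l m n else if deg M l = 2 then lw2 M F l m n else 0

/-- exponents that involve only the multipliers -/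
def Neu (μ : M.Gen → ℕ) : Prop :=
  (∀ q, μ (M.gγ q) = 0) ∧ μ M.gu = 0 ∧ μ M.gu' = 0 ∧ μ M.gw = 0 ∧ μ M.gw' = 0

variable {M}

theorem lw_γ {μ : M.Gen → ℕ} (hμ : Neu M μ) (q : Fin M.nQ) (m n : ℕ) :
    lw M F (μ + M.sg (M.gγ q)) m n = if deg M μ = 0 then M.hh F (q, M.A * m + n) else 0 := by
  obtain ⟨h1, h2, h3, h4, h5⟩ := hμ
  unfold lw
  rw [deg_add, deg_sg]
  by_cases h0 : deg M μ = 0
  · rw [h0, if_pos rfl, if_pos rfl, deg_zero M h0]
    simp [lw1, Mach.sg, Mach.gγ]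
  · rw [if_neg h0, if_neg (by omega)]
    split_ifs
    · simp [lw2, h2, h3, h4, h5, Mach.sg, Mach.gγ, Mach.gu, Mach.gu', Mach.gw, Mach.gw'] at *
    · rfl

theorem lw_um {μ : M.Gen → ℕ} (t : Fin M.nQ × Fin M.A) (m n : ℕ) :
    lw M F (μ + (M.sg M.gu + M.sg (M.gm t))) m n =
      if deg M μ = 0 then M.hh F (M.tgt t.1 t.2, M.b t.1 t.2 * m + n) else 0 := by
  unfold lw
  rw [deg_add, deg_add, deg_sg, deg_sg, if_neg (by omega)]
  by_cases h0 : deg M μ = 0
  · rw [h0, if_pos rfl, if_pos rfl, deg_zero M h0]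
    simp [lw2, Mach.sg, Mach.gm, Mach.gv, Mach.gu, Mach.gu', Mach.gw, Mach.gw']
  · rw [if_neg h0, if_neg (by omega)]

theorem lw_um' {μ : M.Gen → ℕ} (t : Fin M.nQ × Fin M.A) (m n : ℕ) :
    lw M F (μ + (M.sg M.gu' + M.sg (M.gm t))) m n =
      if deg M μ = 0 then M.hh F (M.tgt t.1 t.2, M.A * m + n) else 0 := by
  unfold lw
  rw [deg_add, deg_add, deg_sg, deg_sg, if_neg (by omega)]
  by_cases h0 : deg M μ = 0
  · rw [h0, if_pos rfl, if_pos rfl, deg_zero M h0]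
    simp [lw2, Mach.sg, Mach.gm, Mach.gv, Mach.gu, Mach.gu', Mach.gw, Mach.gw']
  · rw [if_neg h0, if_neg (by omega)]

theorem lw_vw {μ : M.Gen → ℕ} (t : Fin M.nQ × Fin M.A) (m n : ℕ) :
    lw M F (μ + (M.sg (M.gv t) + M.sg M.gw)) m n =
      if deg M μ = 0 then M.hh F (t.1, M.A * m + n + t.2) else 0 := by
  unfold lw
  rw [deg_add, deg_add, deg_sg, deg_sg, if_neg (by omega)]
  by_cases h0 : deg M μ = 0
  · rw [h0, if_pos rfl, if_pos rfl, deg_zero M h0]
    simp [lw2, Mach.sg, Mach.gm, Mach.gv, Mach.gu, Mach.gu', Mach.gw, Mach.gw']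
  · rw [if_neg h0, if_neg (by omega)]

theorem lw_vw' {μ : M.Gen → ℕ} (t : Fin M.nQ × Fin M.A) (m n : ℕ) :
    lw M F (μ + (M.sg (M.gv t) + M.sg M.gw')) m n =
      if deg M μ = 0 then M.hh F (M.tgt t.1 t.2, M.b t.1 t.2 * m + n + M.c t.1 t.2) else 0 := by
  unfold lw
  rw [deg_add, deg_add, deg_sg, deg_sg, if_neg (by omega)]
  by_cases h0 : deg M μ = 0
  · rw [h0, if_pos rfl, if_pos rfl, deg_zero M h0]
    simp [lw2, Mach.sg, Mach.gm, Mach.gv, Mach.gu, Mach.gu', Mach.gw, Mach.gw']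
  · rw [if_neg h0, if_neg (by omega)]

/-- exponents of the right multipliers -/
def RL (β : M.Gen → ℕ) : Prop := ∀ g, (∀ t, g ≠ M.gm t) → β g = 0
/-- exponents of the left multipliers -/
def LL (κ : M.Gen → ℕ) : Prop := ∀ g, (∀ t, g ≠ M.gv t) → κ g = 0

theorem lw_left {β : M.Gen → ℕ} (hβ : RL β) (n : ℕ) :
    lw M F (β + M.sg M.gu) 0 n = lw M F (β + M.sg M.gu') 0 n := by
  have hγ : ∀ q, β (M.gγ q) = 0 := fun q => hβ _ (fun t => by simp [Mach.gγ, Mach.gm])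
  have hu : β M.gu = 0 := hβ _ (fun t => by simp [Mach.gu, Mach.gm])
  have hu' : β M.gu' = 0 := hβ _ (fun t => by simp [Mach.gu', Mach.gm])
  have hw : β M.gw = 0 := hβ _ (fun t => by simp [Mach.gw, Mach.gm])
  have hw' : β M.gw' = 0 := hβ _ (fun t => by simp [Mach.gw', Mach.gm])
  have hv : ∀ t, β (M.gv t) = 0 := fun q => hβ _ (fun t => by simp [Mach.gv, Mach.gm])
  unfold lw
  rw [deg_add, deg_add, deg_sg, deg_sg]
  have e1 : lw1 M F (β + M.sg M.gu) 0 n = lw1 M F (β + M.sg M.gu') 0 n := by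
    simp [lw1, hγ, Mach.sg, Mach.gγ, Mach.gu, Mach.gu']
  have e2 : lw2 M F (β + M.sg M.gu) 0 n = lw2 M F (β + M.sg M.gu') 0 n := by
    simp only [lw2, Pi.add_apply, hu, hu', hw, hw', hv]
    simp [Mach.sg, Mach.gm, Mach.gv, Mach.gu, Mach.gu', Mach.gw, Mach.gw']
  rw [e1, e2]

theorem lw_right {κ : M.Gen → ℕ} (hκ : LL κ) (m : ℕ) :
    lw M F (κ + M.sg M.gw) m 0 = lw M F (κ + M.sg M.gw') m 0 := by
  have hγ : ∀ q, κ (M.gγ q) = 0 := fun q => hκ _ (fun t => by simp [Mach.gγ, Mach.gv])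
  have hu : κ M.gu = 0 := hκ _ (fun t => by simp [Mach.gu, Mach.gv])
  have hu' : κ M.gu' = 0 := hκ _ (fun t => by simp [Mach.gu', Mach.gv])
  have hw : κ M.gw = 0 := hκ _ (fun t => by simp [Mach.gw, Mach.gv])
  have hw' : κ M.gw' = 0 := hκ _ (fun t => by simp [Mach.gw', Mach.gv])
  have hm : ∀ t, κ (M.gm t) = 0 := fun q => hκ _ (fun t => by simp [Mach.gv, Mach.gm])
  unfold lw
  rw [deg_add, deg_add, deg_sg, deg_sg]
  have e1 : lw1 M F (κ + M.sg M.gw) m 0 = lw1 M F (κ + M.sg M.gw') m 0 := by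
    simp [lw1, hγ, Mach.sg, Mach.gγ, Mach.gw, Mach.gw']
  have e2 : lw2 M F (κ + M.sg M.gw) m 0 = lw2 M F (κ + M.sg M.gw') m 0 := by
    simp only [lw2, Pi.add_apply, hu, hu', hw, hw', hm]
    simp [Mach.sg, Mach.gm, Mach.gv, Mach.gu, Mach.gu', Mach.gw, Mach.gw', M.hh_tgt F]
  rw [e1, e2]

variable (M)

/-- the weight of a monomial -/
noncomputable def wt (m : M.Ex) : F :=
  if m.2.2.1 = M.S - 1 ∧ m.2.2.2.1 = M.S - 1 ∧ m.2.2.2.2.1 = 1 then
    lw M F m.2.2.2.2.2 m.1 m.2.1 else 0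

/-- the functional on the big ring -/
noncomputable def θ0 : M.Rg F →ₗ[F] F where
  toFun p := Finsupp.linearCombination F (wt M F) p.coeff
  map_add' p q := by rw [AddMonoidAlgebra.coeff_add, map_add]
  map_smul' a p := by rw [AddMonoidAlgebra.coeff_smul, map_smul]; rfl

theorem θ0_mono (i j a b c : ℕ) (l : M.Gen → ℕ) :
    θ0 M F (M.mono F i j a b c l) =
      if a = M.S - 1 ∧ b = M.S - 1 ∧ c = 1 then lw M F l i j else 0 := by
  change Finsupp.linearCombination F (wt M F) (AddMonoidAlgebra.single _ _).coeff = _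
  rw [AddMonoidAlgebra.coeff_single, Finsupp.linearCombination_single, one_smul]
  rfl

theorem θ0_zero (i j a b c : ℕ) (l : M.Gen → ℕ) (h : M.S ≤ a ∨ M.S ≤ b ∨ 2 ≤ c) (p : M.Rg F) :
    θ0 M F (p * M.mono F i j a b c l) = 0 := by
  have hS := M.S_pos
  induction p using AddMonoidAlgebra.induction_linear with
  | zero => rw [zero_mul, map_zero]
  | add f g hf hg => rw [add_mul, map_add, hf, hg, add_zero]
  | single m r =>
    obtain ⟨i', j', a', b', c', l'⟩ := m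
    have e : (AddMonoidAlgebra.single (i', j', a', b', c', l') r : M.Rg F) =
        r • M.mono F i' j' a' b' c' l' := by
      unfold Mach.mono
      rw [AddMonoidAlgebra.smul_single, smul_eq_mul, mul_one]
    rw [e, smul_mul_assoc, Mach.mono_mul, map_smul, θ0_mono, if_neg, smul_zero]
    rintro ⟨h1, h2, h3⟩
    rcases h with h | h | h <;> omega

theorem θ0_I0 (p : M.Rg F) (hp : p ∈ M.I0 F) : θ0 M F p = 0 := by
  unfold Mach.I0 at hp
  rw [Ideal.mem_span_insert] at hp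
  obtain ⟨a, q, hq, rfl⟩ := hp
  rw [Ideal.mem_span_pair] at hq
  obtain ⟨b, c, rfl⟩ := hq
  rw [map_add, map_add, θ0_zero, θ0_zero, θ0_zero, add_zero, add_zero]
  · right; right; exact le_refl _
  · right; left; exact le_refl _
  · left; exact le_refl _

/-- the functional on the test ring -/
noncomputable def θb : M.Cb F →ₗ[F] F :=
  (Submodule.liftQ ((M.I0 F).restrictScalars F) (θ0 M F) (fun p hp => θ0_I0 M F p hp)) ∘ₗ
    (Submodule.Quotient.restrictScalarsEquiv F (M.I0 F)).symm.toLinearMap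

theorem θb_mk (p : M.Rg F) : θb M F (Ideal.Quotient.mk (M.I0 F) p) = θ0 M F p := rfl

theorem map_rval {C C' : Type*} [CommRing C] [CommRing C'] (φ : C →+* C') (x y : C)
    (lt : M.Gen → C) (r : M.Rel) :
    φ (rval M x y lt r) = rval M (φ x) (φ y) (fun g => φ (lt g)) r := by
  rcases r with q | t | t | t | t | _ <;> simp only [rval, map_sub, map_mul, map_pow]

theorem rel0 (i j a b : ℕ) {μ : M.Gen → ℕ} (hμ : Neu M μ) (r : M.Rel) :
    θ0 M F (M.mono F i j a b 1 μ *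
      rval M (M.mono F 1 0 0 0 0 0) (M.mono F 0 1 0 0 0 0) (M.lt0 F) r) = 0 := by
  rcases r with q | t | t | t | t | _
  · simp only [rval, Mach.lt0, M.mono_y_pow, mul_sub, M.mono_mul, map_sub, θ0_mono]
    simp only [add_zero, zero_add, lw_γ F hμ]
    rw [show M.A * (i + 1) + j = M.A * i + (j + M.A) by ring]
    simp
  · simp only [rval, Mach.lt0, M.mono_y_pow, mul_sub, M.mono_mul, map_sub, θ0_mono]
    simp only [add_zero, zero_add, lw_um F]
    rw [show M.b t.1 t.2 * (i + 1) + j = M.b t.1 t.2 * i + (j + M.b t.1 t.2) by ring]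
    simp
  · simp only [rval, Mach.lt0, M.mono_y_pow, mul_sub, M.mono_mul, map_sub, θ0_mono]
    simp only [add_zero, zero_add, lw_vw F, lw_γ F hμ]
    rw [show M.A * i + (j + (t.2 : ℕ)) = M.A * i + j + t.2 by ring]
    simp
  · simp only [rval, Mach.lt0, M.mono_y_pow, mul_sub, M.mono_mul, map_sub, θ0_mono]
    simp only [add_zero, zero_add, lw_vw' F, lw_um F]
    rw [show M.b t.1 t.2 * i + (j + M.c t.1 t.2) = M.b t.1 t.2 * i + j + M.c t.1 t.2 by ring]
    simp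
  · simp only [rval, Mach.lt0, mul_sub, M.mono_mul, map_sub, θ0_mono]
    simp only [add_zero, zero_add, lw_um' F, lw_γ F hμ]
    simp
  · simp only [rval, Mach.lt0, M.mono_mul, θ0_mono]
    simp only [add_zero, zero_add, lw_γ F hμ, M.hh_qh]
    simp

/-- the left polynomials -/
noncomputable def PXb : Submodule F (M.Cb F) :=
  Submodule.span F {c | ∃ (i a : ℕ) (κ : M.Gen → ℕ), LL κ ∧
    c = Ideal.Quotient.mk (M.I0 F) (M.mono F i 0 a 0 0 κ)}

/-- the right polynomials -/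
noncomputable def PYb : Submodule F (M.Cb F) :=
  Submodule.span F {c | ∃ (j b : ℕ) (β : M.Gen → ℕ), RL β ∧
    c = Ideal.Quotient.mk (M.I0 F) (M.mono F 0 j 0 b 0 β)}

theorem span_mul {C : Type*} [CommRing C] [Algebra F C] {X : Set C} {Q : Submodule F C} (d : C)
    (h : ∀ c ∈ X, c * d ∈ Q) {c : C} (hc : c ∈ Submodule.span F X) : c * d ∈ Q := by
  induction hc using Submodule.span_induction with
  | mem c hc => exact h c hc
  | zero => rw [zero_mul]; exact Q.zero_mem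
  | add a b _ _ ha hb => rw [add_mul]; exact Q.add_mem ha hb
  | smul a c _ hc => rw [smul_mul_assoc]; exact Q.smul_mem a hc

theorem span_lin {C : Type*} [CommRing C] [Algebra F C] {X : Set C} (l : C →ₗ[F] F) (d : C)
    (h : ∀ c ∈ X, l (c * d) = 0) {c : C}
    (hc : c ∈ Submodule.span F X) : l (c * d) = 0 := by
  have : Submodule.span F X ≤ LinearMap.ker (l ∘ₗ LinearMap.mulRight F d) :=
    Submodule.span_le.mpr fun c hc => h c hc
  exact this hc

theorem LL_zero : LL (0 : M.Gen → ℕ) := fun _ _ => rfl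
theorem RL_zero : RL (0 : M.Gen → ℕ) := fun _ _ => rfl

theorem LL_add {κ : M.Gen → ℕ} (h : LL κ) (t) : LL (κ + M.sg (M.gv t)) := by
  intro g hg
  rw [Pi.add_apply, h g hg, zero_add]
  unfold Mach.sg
  rw [if_neg (hg t)]

theorem RL_add {κ : M.Gen → ℕ} (h : RL κ) (t) : RL (κ + M.sg (M.gm t)) := by
  intro g hg
  rw [Pi.add_apply, h g hg, zero_add]
  unfold Mach.sg
  rw [if_neg (hg t)]

theorem neu_add {κ β : M.Gen → ℕ} (h : LL κ) (h' : RL β) : Neu M (κ + β) := by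
  refine ⟨fun q => ?_, ?_, ?_, ?_, ?_⟩ <;>
  rw [Pi.add_apply, h _ (fun t => by simp [Mach.gγ, Mach.gv, Mach.gu, Mach.gu', Mach.gw, Mach.gw']),
    h' _ (fun t => by simp [Mach.gγ, Mach.gm, Mach.gu, Mach.gu', Mach.gw, Mach.gw'])]

/-- the concrete test data -/
noncomputable def TD : TestData M F (M.Cb F) where
  x := Ideal.Quotient.mk _ (M.mono F 1 0 0 0 0 0)
  y := Ideal.Quotient.mk _ (M.mono F 0 1 0 0 0 0)
  τ := Ideal.Quotient.mk _ (M.mono F 0 0 1 0 0 0)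
  τ' := Ideal.Quotient.mk _ (M.mono F 0 0 0 1 0 0)
  s := Ideal.Quotient.mk _ (M.mono F 0 0 0 0 1 0)
  lt g := Ideal.Quotient.mk _ (M.lt0 F g)
  θ := θb M F
  PX := PXb M F
  PY := PYb M F
  X_one := Submodule.subset_span ⟨0, 0, 0, LL_zero M, rfl⟩
  X_x p hp := by
    refine span_mul F _ ?_ hp
    rintro c ⟨i, a, κ, hκ, rfl⟩
    rw [← map_mul, M.mono_mul]
    exact Submodule.subset_span ⟨i + 1, a, κ, hκ, by simp⟩
  X_τ p hp := by
    refine span_mul F _ ?_ hp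
    rintro c ⟨i, a, κ, hκ, rfl⟩
    rw [← map_mul, M.mono_mul]
    exact Submodule.subset_span ⟨i, a + 1, κ, hκ, by simp⟩
  X_l p hp t := by
    refine span_mul F _ ?_ hp
    rintro c ⟨i, a, κ, hκ, rfl⟩
    rw [← map_mul, Mach.lt0, M.mono_mul]
    exact Submodule.subset_span ⟨i, a, κ + M.sg (M.gv t), LL_add M hκ t, by simp⟩
  Y_one := Submodule.subset_span ⟨0, 0, 0, RL_zero M, rfl⟩
  Y_y p hp := by
    refine span_mul F _ ?_ hp
    rintro c ⟨i, a, κ, hκ, rfl⟩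
    rw [← map_mul, M.mono_mul]
    exact Submodule.subset_span ⟨i + 1, a, κ, hκ, by simp⟩
  Y_τ' p hp := by
    refine span_mul F _ ?_ hp
    rintro c ⟨i, a, κ, hκ, rfl⟩
    rw [← map_mul, M.mono_mul]
    exact Submodule.subset_span ⟨i, a + 1, κ, hκ, by simp⟩
  Y_l p hp t := by
    refine span_mul F _ ?_ hp
    rintro c ⟨i, a, κ, hκ, rfl⟩
    rw [← map_mul, Mach.lt0, M.mono_mul]
    exact Submodule.subset_span ⟨i, a, κ + M.sg (M.gm t), RL_add M hκ t, by simp⟩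
  hτ := by
    rw [← map_pow, M.mono_τ_pow]
    exact Ideal.Quotient.eq_zero_iff_mem.mpr (Ideal.subset_span (Or.inl rfl))
  hτ' := by
    rw [← map_pow, M.mono_τ'_pow]
    exact Ideal.Quotient.eq_zero_iff_mem.mpr (Ideal.subset_span (Or.inr (Or.inl rfl)))
  hs := by
    rw [← map_mul, M.mono_mul]
    exact Ideal.Quotient.eq_zero_iff_mem.mpr (Ideal.subset_span (Or.inr (Or.inr rfl)))
  hrel p hp q hq r := by
    rw [mul_assoc, mul_assoc]
    refine span_lin F _ _ ?_ hp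
    rintro c ⟨i, a, κ, hκ, rfl⟩
    rw [mul_left_comm]
    refine span_lin F _ _ ?_ hq
    rintro c ⟨j, b, β, hβ, rfl⟩
    rw [← map_rval M (Ideal.Quotient.mk (M.I0 F))]
    simp only [← map_mul]
    rw [θb_mk]
    have e : M.mono F 0 j 0 b 0 β * (M.mono F i 0 a 0 0 κ * (M.mono F 0 0 0 0 1 0 *
        rval M (M.mono F 1 0 0 0 0 0) (M.mono F 0 1 0 0 0 0) (M.lt0 F) r)) =
        M.mono F i j a b 1 (κ + β) *
        rval M (M.mono F 1 0 0 0 0 0) (M.mono F 0 1 0 0 0 0) (M.lt0 F) r := by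
      rw [← mul_assoc, ← mul_assoc, M.mono_mul, M.mono_mul]
      simp [add_comm]
    rw [e]
    exact rel0 M F i j a b (neu_add M hκ hβ) r
  hleft q hq := by
    rw [mul_comm _ q, mul_assoc, mul_assoc]
    refine span_lin F _ _ ?_ hq
    rintro c ⟨j, b, β, hβ, rfl⟩
    simp only [← map_mul, ← map_sub, ← map_pow]
    rw [θb_mk, M.mono_τ_pow]
    simp only [Mach.lt0, mul_sub, M.mono_mul, map_sub, θ0_mono, add_zero, zero_add]
    rw [lw_left F hβ]
    simp
  hright p hp := by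
    rw [mul_assoc, mul_assoc]
    refine span_lin F _ _ ?_ hp
    rintro c ⟨i, a, κ, hκ, rfl⟩
    simp only [← map_mul, ← map_sub, ← map_pow]
    rw [θb_mk, M.mono_τ'_pow]
    simp only [Mach.lt0, mul_sub, M.mono_mul, map_sub, θ0_mono, add_zero, zero_add]
    rw [lw_right F hκ]
    simp

theorem TD_test (N : ℕ) (hN : ¬ M.Halts (M.q0, N)) :
    (TD M F).θ ((TD M F).τ ^ (M.S - 1) * (TD M F).lt (M.gγ M.q0) * (TD M F).τ' ^ (M.S - 1) *
      (TD M F).y ^ N * (TD M F).s) ≠ 0 := by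
  have h : (TD M F).τ ^ (M.S - 1) * (TD M F).lt (M.gγ M.q0) * (TD M F).τ' ^ (M.S - 1) *
      (TD M F).y ^ N * (TD M F).s =
      Ideal.Quotient.mk _ (M.mono F 0 N (M.S - 1) (M.S - 1) 1 (M.sg (M.gγ M.q0))) := by
    change (Ideal.Quotient.mk _ _) ^ (M.S - 1) * Ideal.Quotient.mk _ _ *
      (Ideal.Quotient.mk _ _) ^ (M.S - 1) * (Ideal.Quotient.mk _ _) ^ N * Ideal.Quotient.mk _ _ = _
    rw [← map_pow, ← map_pow, ← map_pow, ← map_mul, ← map_mul, ← map_mul, ← map_mul, M.mono_τ_pow,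
      M.mono_τ'_pow, M.mono_y_pow, Mach.lt0, M.mono_mul, M.mono_mul, M.mono_mul, M.mono_mul]
    simp
  rw [h]
  change θb M F _ ≠ 0
  have hN0 : Neu M (0 : M.Gen → ℕ) := ⟨fun _ => rfl, rfl, rfl, rfl, rfl⟩
  have h2 := lw_γ F hN0 M.q0 0 N
  rw [zero_add, mul_zero, zero_add, if_pos (by simp [deg])] at h2
  rw [θb_mk, θ0_mono, if_pos ⟨rfl, rfl, rfl⟩, h2, Mach.hh, if_neg hN]
  exact one_ne_zero

end Pool.Agent.H.MP_7596fa_lc.T
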