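import Pool.Agent.H.MP_7596fa_lc.Sim

/-!
The construction with three idempotents, and the derivation: if the machine halts, then the test
element vanishes.
-/

namespace Pool.Agent.H.MP_7596fa_lc.T

variable (M : Mach) {B : Type*} [Ring B] (a : M.Gen → B) (e : Fin 3 → B)

/-- the first counter -/
def xx : B := e 1 * a M.gg * e 1
/-- the second counter -/
def yy : B := e 2 * a M.gg * e 2
def γγ (q : Fin M.nQ) : B := e 1 * a (M.gγ q) * e 2
def uu : B := e 1 * a M.gu * e 2
def uu' : B := e 1 * a M.gu' * e 2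
def ww : B := e 1 * a M.gw * e 2
def ww' : B := e 1 * a M.gw' * e 2
def mm (t : Fin M.nQ × Fin M.A) : B := e 2 * a (M.gm t) * e 2
def vv (t : Fin M.nQ × Fin M.A) : B := e 1 * a (M.gv t) * e 1

/-- the packed relations -/
def rel : M.Rel → B
  | Sum.inl q => xx M a e * γγ M a e q - γγ M a e q * yy M a e ^ M.A
  | Sum.inr (Sum.inl t) =>
      xx M a e * (uu M a e * mm M a e t) - uu M a e * mm M a e t * yy M a e ^ M.b t.1 t.2
  | Sum.inr (Sum.inr (Sum.inl t)) =>
      γγ M a e t.1 * yy M a e ^ (t.2 : ℕ) - vv M a e t * ww M a e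
  | Sum.inr (Sum.inr (Sum.inr (Sum.inl t))) =>
      vv M a e t * ww' M a e - uu M a e * mm M a e t * yy M a e ^ M.c t.1 t.2
  | Sum.inr (Sum.inr (Sum.inr (Sum.inr (Sum.inl t)))) =>
      uu' M a e * mm M a e t - γγ M a e (M.tgt t.1 t.2)
  | Sum.inr (Sum.inr (Sum.inr (Sum.inr (Sum.inr _)))) => γγ M a e M.qh

/-- the packed relation -/
noncomputable def rho : B :=
  ∑ s : Fin M.S, (a M.gz - 1) ^ (s : ℕ) * rel M a e (M.num.symm s) *
    (a M.gz - 2) ^ (M.S - 1 - s)

/-- the blocks of `W` -/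
noncomputable def blk : Fin 3 → Fin 3 → B
  | 1, 1 => a M.gg
  | 2, 2 => a M.gg
  | 0, 1 => a M.gL * (a M.gz - 1) ^ M.S
  | 2, 0 => (a M.gz - 2) ^ M.S * a M.gR
  | 1, 2 => rho M a e
  | 0, 2 => a M.gL * e 1 * (a M.gz - 1) ^ (M.S - 1) * (uu M a e - uu' M a e)
  | 1, 0 => (ww M a e - ww' M a e) * (a M.gz - 2) ^ (M.S - 1) * e 2 * a M.gR
  | _, _ => 0

/-- the element `W` -/
noncomputable def WW : B := ∑ i, ∑ j, e i * blk M a e i j * e j

/-- the polynomial `p` evaluated at `z` -/
def pz : B := a M.gz * (a M.gz - 1) ^ M.S * (a M.gz - 2) ^ M.S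

/-- the relator -/
noncomputable def relator : B := pz M a - (a M.gz * WW M a e - WW M a e * a M.gz)

/-- the test elements -/
def test (N : ℕ) : B :=
  (e 0 * a M.gL * e 1 * (a M.gz - 1) ^ (M.S - 1) * a (M.gγ M.q0) * e 2 * (a M.gz - 2) ^ (M.S - 1)) *
    (a M.gg * e 2) ^ N * (a M.gR * e 0)

theorem WW_block (he : ∀ i j, e i * e j = if i = j then e i else 0) (i j : Fin 3) :
    e i * WW M a e * e j = e i * blk M a e i j * e j := by
  unfold WW
  rw [Finset.mul_sum, Finset.sum_mul, Finset.sum_eq_single i]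
  · rw [Finset.mul_sum, Finset.sum_mul, Finset.sum_eq_single j]
    · have h1 : e i * (e i * blk M a e i j * e j) * e j =
          (e i * e i) * blk M a e i j * (e j * e j) := by
        noncomm_ring
      rw [h1, he, he, if_pos rfl, if_pos rfl]
    · intro j' _ hne
      rw [mul_assoc, mul_assoc _ (e j') (e j), he, if_neg hne]
      simp
    · simp
  · intro i' _ hne
    rw [Finset.mul_sum, Finset.sum_mul]
    apply Finset.sum_eq_zero
    intro j' _
    have h1 : e i * (e i' * blk M a e i' j' * e j') * e j =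
        (e i * e i') * blk M a e i' j' * (e j' * e j) := by
      noncomm_ring
    rw [h1, he, if_neg (Ne.symm hne)]
    simp
  · simp

section deriv

variable (he : ∀ i j, e i * e j = if i = j then e i else 0)
  (hz : ∀ i, Commute (a M.gz) (e i))
  (hoff : ∀ i j, i ≠ j → e i * WW M a e * e j = 0)
  (hrel : a M.gz * WW M a e - WW M a e * a M.gz = pz M a)

include he in
theorem ee (i : Fin 3) : e i * e i = e i := by rw [he, if_pos rfl]

include he in
theorem sand_l (i j : Fin 3) (g : B) : e i * (e i * g * e j) = e i * g * e j := by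
  rw [← mul_assoc, ← mul_assoc, ee e he]

include he in
theorem sand_r (i j : Fin 3) (g : B) : (e i * g * e j) * e j = e i * g * e j := by
  rw [mul_assoc, ee e he]

include he in
theorem yy_pow_comm (n : ℕ) : yy M a e ^ n * e 2 = e 2 * yy M a e ^ n := by
  have : Commute (yy M a e) (e 2) := by
    unfold Commute SemiconjBy yy; rw [sand_l e he, sand_r e he]
  exact (this.pow_left n).eq

include he in
theorem mul_yy_pow_r {c : B} (hc : c * e 2 = c) (n : ℕ) :
    c * yy M a e ^ n * e 2 = c * yy M a e ^ n := by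
  rw [mul_assoc, yy_pow_comm M a e he, ← mul_assoc, hc]

include he in
theorem rel_lr (s : M.Rel) : e 1 * rel M a e s * e 2 = rel M a e s := by
  have hγl : ∀ q, e 1 * γγ M a e q = γγ M a e q := fun q => sand_l e he _ _ _
  have hγr : ∀ q, γγ M a e q * e 2 = γγ M a e q := fun q => sand_r e he _ _ _
  have hxl : e 1 * xx M a e = xx M a e := sand_l e he _ _ _
  have hul : e 1 * uu M a e = uu M a e := sand_l e he _ _ _
  have hul' : e 1 * uu' M a e = uu' M a e := sand_l e he _ _ _
  have hwr : ww M a e * e 2 = ww M a e := sand_r e he _ _ _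
  have hwr' : ww' M a e * e 2 = ww' M a e := sand_r e he _ _ _
  have hmr : ∀ t, mm M a e t * e 2 = mm M a e t := fun t => sand_r e he _ _ _
  have hvl : ∀ t, e 1 * vv M a e t = vv M a e t := fun t => sand_l e he _ _ _
  have hum : ∀ t, (uu M a e * mm M a e t) * e 2 = uu M a e * mm M a e t := fun t => by
    rw [mul_assoc, hmr]
  rcases s with q | t | t | t | t | u
  · simp only [rel]
    rw [mul_sub, sub_mul, ← mul_assoc (e 1) (xx M a e), hxl, mul_assoc (xx M a e), hγr,
      ← mul_assoc (e 1), hγl, mul_yy_pow_r M a e he (hγr q)]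
  · simp only [rel]
    rw [mul_sub, sub_mul, ← mul_assoc (e 1) (xx M a e), hxl, mul_assoc (xx M a e), hum,
      ← mul_assoc (e 1), ← mul_assoc (e 1), hul, mul_yy_pow_r M a e he (hum t)]
  · simp only [rel]
    rw [mul_sub, sub_mul, ← mul_assoc (e 1) (γγ M a e t.1), hγl, mul_yy_pow_r M a e he (hγr _),
      ← mul_assoc (e 1), hvl, mul_assoc (vv M a e t), hwr]
  · simp only [rel]
    rw [mul_sub, sub_mul, ← mul_assoc (e 1) (vv M a e t), hvl, mul_assoc (vv M a e t),
      hwr', ← mul_assoc (e 1), ← mul_assoc (e 1), hul,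
      mul_yy_pow_r M a e he (hum t)]
  · simp only [rel]
    rw [mul_sub, sub_mul, ← mul_assoc (e 1) (uu' M a e), hul', mul_assoc (uu' M a e),
      hmr, hγl, hγr]
  · simp only [rel]
    rw [hγl, hγr]

/-- left context -/
def TL (m : ℕ) : B := e 0 * a M.gL * e 1 * xx M a e ^ m * (a M.gz - 1) ^ (M.S - 1)
/-- right context -/
def TR (n : ℕ) : B := (a M.gz - 2) ^ (M.S - 1) * (yy M a e ^ n * (e 2 * a M.gR * e 0))

include he hz hoff hrel in
theorem main_facts :
    (∀ m, TL M a e m * xx M a e = TL M a e (m+1)) ∧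
    (∀ n, yy M a e * TR M a e n = TR M a e (n+1)) ∧
    (∀ s m n, TL M a e m * rel M a e s * TR M a e n = 0) ∧
    (TL M a e 0 * uu M a e = TL M a e 0 * uu' M a e) ∧
    (ww M a e * TR M a e 0 = ww' M a e * TR M a e 0) := by
  set z := a M.gz with hzdef
  have hc1 : Commute z (z - 1) := (Commute.refl z).sub_right (Commute.one_right z)
  have hc2 : Commute z (z - 2) := (Commute.refl z).sub_right (Commute.ofNat_right z 2)
  have hc12 : Commute (z - 1) (z - 2) := (hc2).sub_left (Commute.one_left _)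
  have he1 : ∀ i, Commute (z - 1) (e i) := fun i => (hz i).sub_left (Commute.one_left _)
  have he2 : ∀ i, Commute (z - 2) (e i) := fun i => (hz i).sub_left (Commute.ofNat_left 2 _)
  have hpz : pz M a = z * (z - 1) ^ M.S * (z - 2) ^ M.S := rfl
  have hpe : ∀ i, Commute (pz M a) (e i) := fun i => by
    rw [hpz]
    exact ((hz i).mul_left ((he1 i).pow_left _)).mul_left ((he2 i).pow_left _)
  -- the diagonal blocks
  have hdiag : ∀ i : Fin 3, z * (e i * WW M a e * e i) - (e i * WW M a e * e i) * z =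
      pz M a * e i := by
    intro i
    have h1 : z * (e i * WW M a e * e i) - (e i * WW M a e * e i) * z =
        e i * (z * WW M a e - WW M a e * z) * e i := by
      rw [mul_sub, sub_mul]
      congr 1
      · rw [← mul_assoc, ← mul_assoc, (hz i).eq]; noncomm_ring
      · rw [mul_assoc _ (e i) z, ← (hz i).eq]; noncomm_ring
    rw [h1, hrel, ← (hpe i).eq, mul_assoc, ee e he]
  have hx : e 1 * WW M a e * e 1 = xx M a e := by
    rw [WW_block M a e he]; rfl
  have hy : e 2 * WW M a e * e 2 = yy M a e := by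
    rw [WW_block M a e he]; rfl
  have hdx : (z - 1) * xx M a e - xx M a e * (z - 1) =
      (z - 1) ^ M.S * (z * (z - 2) ^ M.S * e 1) := by
    have h1 := hdiag 1
    rw [hx] at h1
    have h2 : (z - 1) * xx M a e - xx M a e * (z - 1) = z * xx M a e - xx M a e * z := by
      noncomm_ring
    rw [h2, h1, hpz, (hc1.pow_right M.S).eq]
    noncomm_ring
  have hdy : (z - 2) * yy M a e - yy M a e * (z - 2) =
      (z * (z - 1) ^ M.S * e 2) * (z - 2) ^ M.S := by
    have h1 := hdiag 2
    rw [hy] at h1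
    have h2 : (z - 2) * yy M a e - yy M a e * (z - 2) = z * yy M a e - yy M a e * z := by
      have : (2 : B) * yy M a e = yy M a e * 2 := (Commute.ofNat_left 2 _).eq
      rw [sub_mul, mul_sub, this]; abel
    rw [h2, h1, hpz, mul_assoc _ ((z - 2) ^ M.S), ((he2 2).pow_left M.S).eq]
    noncomm_ring
  -- the off-diagonal blocks
  have hl : e 0 * a M.gL * e 1 * (z - 1) ^ M.S = 0 := by
    have h1 := hoff 0 1 (by decide)
    rw [WW_block M a e he] at h1
    have h2 : e 0 * blk M a e 0 1 * e 1 = e 0 * (a M.gL * (z - 1) ^ M.S) * e 1 := rfl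
    rw [h2] at h1
    rw [← h1, mul_assoc _ (e 1), ← ((he1 1).pow_left M.S).eq]
    noncomm_ring
  have hr : (z - 2) ^ M.S * (e 2 * a M.gR * e 0) = 0 := by
    have h1 := hoff 2 0 (by decide)
    rw [WW_block M a e he] at h1
    have h2 : e 2 * blk M a e 2 0 * e 0 = e 2 * ((z - 2) ^ M.S * a M.gR) * e 0 := rfl
    rw [h2] at h1
    rw [← h1, ← mul_assoc, ← mul_assoc, ((he2 2).pow_left M.S).eq]
    noncomm_ring
  have hrho : ∑ s : Fin M.S, (z - 1) ^ (s : ℕ) * rel M a e (M.num.symm s) *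
      (z - 2) ^ (M.S - 1 - s) = 0 := by
    have h1 := hoff 1 2 (by decide)
    rw [WW_block M a e he] at h1
    have h2 : e 1 * blk M a e 1 2 * e 2 = e 1 * rho M a e * e 2 := rfl
    rw [h2, rho, Finset.mul_sum, Finset.sum_mul] at h1
    rw [← h1]
    apply Finset.sum_congr rfl
    intro s _
    rw [← hzdef]
    have h3 : e 1 * ((z - 1) ^ (s : ℕ) * rel M a e (M.num.symm s) * (z - 2) ^ (M.S - 1 - s)) * e 2 =
        (z - 1) ^ (s : ℕ) * (e 1 * rel M a e (M.num.symm s) * e 2) * (z - 2) ^ (M.S - 1 - s) := by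
      have h4 := ((he1 1).pow_left (s : ℕ)).eq
      have h5 := ((he2 2).pow_left (M.S - 1 - s)).eq
      calc e 1 * ((z - 1) ^ (s : ℕ) * rel M a e (M.num.symm s) * (z - 2) ^ (M.S - 1 - s)) * e 2
          = (e 1 * (z - 1) ^ (s : ℕ)) * rel M a e (M.num.symm s) * ((z - 2) ^ (M.S - 1 - s) * e 2) := by
            noncomm_ring
        _ = _ := by rw [← h4, h5]; noncomm_ring
    rw [h3, rel_lr M a e he]
  refine ⟨?_, ?_, ?_, ?_, ?_⟩
  · intro m
    exact ctxL_comm (z - 1) (xx M a e) _ _ M.S hdx hl m (M.S - 1)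
  · intro n
    exact ctxR_comm (z - 2) (yy M a e) _ _ M.S hdy hr n (M.S - 1)
  · intro s m n
    have h1 := unpack (z - 1) (z - 2) (e 0 * a M.gL * e 1 * xx M a e ^ m)
      (yy M a e ^ n * (e 2 * a M.gR * e 0)) M.S
      (ctxL (z - 1) (xx M a e) _ _ M.S hdx hl m) (ctxR (z - 2) (yy M a e) _ _ M.S hdy hr n)
      (fun s => rel M a e (M.num.symm s)) hrho (M.num s)
    rw [Equiv.symm_apply_apply] at h1
    exact h1
  · have h1 := hoff 0 2 (by decide)
    rw [WW_block M a e he] at h1
    have h2 : e 0 * blk M a e 0 2 * e 2 =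
      e 0 * (a M.gL * e 1 * (z - 1) ^ (M.S - 1) * (uu M a e - uu' M a e)) * e 2 := rfl
    rw [h2] at h1
    rw [← sub_eq_zero, ← mul_sub, ← h1, TL, ← hzdef, pow_zero]
    have h3 : (uu M a e - uu' M a e) * e 2 = uu M a e - uu' M a e := by
      unfold uu uu'
      rw [sub_mul, sand_r e he, sand_r e he]
    calc e 0 * a M.gL * e 1 * 1 * (z - 1) ^ (M.S - 1) * (uu M a e - uu' M a e)
        = e 0 * a M.gL * e 1 * 1 * (z - 1) ^ (M.S - 1) * ((uu M a e - uu' M a e) * e 2) := by rw [h3]
      _ = _ := by noncomm_ring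
  · have h1 := hoff 1 0 (by decide)
    rw [WW_block M a e he] at h1
    have h2 : e 1 * blk M a e 1 0 * e 0 =
      e 1 * ((ww M a e - ww' M a e) * (z - 2) ^ (M.S - 1) * e 2 * a M.gR) * e 0 := rfl
    rw [h2] at h1
    rw [← sub_eq_zero, ← sub_mul, ← h1, TR, ← hzdef, pow_zero]
    have h3 : e 1 * (ww M a e - ww' M a e) = ww M a e - ww' M a e := by
      unfold ww ww'
      rw [mul_sub, sand_l e he, sand_l e he]
    calc (ww M a e - ww' M a e) * ((z - 2) ^ (M.S - 1) * (1 * (e 2 * a M.gR * e 0)))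
        = (e 1 * (ww M a e - ww' M a e)) * ((z - 2) ^ (M.S - 1) * (1 * (e 2 * a M.gR * e 0))) := by
          rw [h3]
      _ = _ := by noncomm_ring

/-- the value of a configuration -/
def V (s : Fin M.nQ × ℕ) : B := TL M a e 0 * γγ M a e s.1 * TR M a e s.2

include he hz hoff hrel in
theorem V_step (s : Fin M.nQ × ℕ) : V M a e s = V M a e (M.step s) := by
  obtain ⟨h1, h2, h3, h4, h5⟩ := main_facts M a e he hz hoff hrel
  have hy : ∀ k n, yy M a e ^ k * TR M a e n = TR M a e (n + k) := by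
    intro k
    induction k with
    | zero => intro n; simp
    | succ k ih => intro n; rw [pow_succ, mul_assoc, h2, ih]; congr 1; omega
  have hA : ∀ q m n, TL M a e m * γγ M a e q * TR M a e n =
      V M a e (q, M.A * m + n) := by
    intro q m
    induction m with
    | zero => intro n; simp [V]
    | succ m ih =>
      intro n
      have h6 := h3 (Sum.inl q) m n
      simp only [rel] at h6
      rw [mul_sub, sub_mul, sub_eq_zero, ← mul_assoc, h1, ← mul_assoc,
        mul_assoc _ (yy M a e ^ M.A), hy, ih] at h6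
      rw [h6]
      congr 2
      ring
  have hB : ∀ t m n, TL M a e m * (uu M a e * mm M a e t) * TR M a e n =
      TL M a e 0 * (uu M a e * mm M a e t) * TR M a e (M.b t.1 t.2 * m + n) := by
    intro t m
    induction m with
    | zero => intro n; simp
    | succ m ih =>
      intro n
      have h6 := h3 (Sum.inr (Sum.inl t)) m n
      simp only [rel] at h6
      rw [mul_sub, sub_mul, sub_eq_zero, ← mul_assoc, h1, ← mul_assoc (TL M a e m),
        mul_assoc _ (yy M a e ^ M.b t.1 t.2), hy, ih] at h6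
      rw [h6]
      congr 2
      ring
  obtain ⟨q, N⟩ := s
  have hN : N = M.A * (N / M.A) + ((⟨N % M.A, Nat.mod_lt _ M.hA⟩ : Fin M.A) : ℕ) :=
    (Nat.div_add_mod N M.A).symm
  set j : Fin M.A := ⟨N % M.A, Nat.mod_lt _ M.hA⟩
  set m := N / M.A
  rw [hN, M.step_eq, ← hA q m j]
  have e1 : TL M a e m * γγ M a e q * TR M a e j =
      TL M a e m * (γγ M a e q * yy M a e ^ (j : ℕ)) * TR M a e 0 := by
    rw [← mul_assoc, mul_assoc _ (yy M a e ^ (j : ℕ)), hy, zero_add]
  have e2 := h3 (Sum.inr (Sum.inr (Sum.inl (q, j)))) m 0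
  simp only [rel] at e2
  rw [mul_sub, sub_mul, sub_eq_zero] at e2
  have e3 : TL M a e m * (vv M a e (q, j) * ww M a e) * TR M a e 0 =
      TL M a e m * (vv M a e (q, j) * ww' M a e) * TR M a e 0 := by
    rw [← mul_assoc, ← mul_assoc, mul_assoc _ (ww M a e), h5, mul_assoc _ (ww' M a e)]
  have e4 := h3 (Sum.inr (Sum.inr (Sum.inr (Sum.inl (q, j))))) m 0
  simp only [rel] at e4
  rw [mul_sub, sub_mul, sub_eq_zero, ← mul_assoc (TL M a e m) (uu M a e * mm M a e (q, j)),
    mul_assoc _ (yy M a e ^ M.c q j), hy, zero_add, hB] at e4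
  have e5 : TL M a e 0 * (uu M a e * mm M a e (q, j)) * TR M a e (M.b q j * m + M.c q j) =
      TL M a e 0 * (uu' M a e * mm M a e (q, j)) * TR M a e (M.b q j * m + M.c q j) := by
    rw [← mul_assoc (TL M a e 0), h4, ← mul_assoc (TL M a e 0)]
  have e6 := h3 (Sum.inr (Sum.inr (Sum.inr (Sum.inr (Sum.inl (q, j)))))) 0 (M.b q j * m + M.c q j)
  simp only [rel] at e6
  rw [mul_sub, sub_mul, sub_eq_zero] at e6
  rw [e1, e2, e3, e4, e5, e6]
  rfl

include he hz hoff hrel in
theorem V_halts (s : Fin M.nQ × ℕ) (h : M.Halts s) : V M a e s = 0 := by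
  obtain ⟨t, ht⟩ := h
  have h1 : ∀ t, V M a e s = V M a e (M.step^[t] s) := by
    intro t
    induction t with
    | zero => rfl
    | succ t ih => rw [ih, Function.iterate_succ_apply']; exact V_step M a e he hz hoff hrel _
  obtain ⟨-, -, h3, -, -⟩ := main_facts M a e he hz hoff hrel
  have h6 := h3 (Sum.inr (Sum.inr (Sum.inr (Sum.inr (Sum.inr ()))))) 0 (M.step^[t] s).2
  simp only [rel] at h6
  rw [h1 t, V, ht]
  exact h6

include he hz in
theorem test_eq (N : ℕ) : test M a e N = V M a e (M.q0, N) := by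
  have he1 : Commute ((a M.gz - 1) ^ (M.S - 1)) (e 1) :=
    ((hz 1).sub_left (Commute.one_left _)).pow_left _
  have he3 : Commute ((a M.gz - 2) ^ (M.S - 1)) (e 2) :=
    ((hz 2).sub_left (Commute.ofNat_left 2 _)).pow_left _
  have h1 : ∀ n : ℕ, e 2 * (a M.gg * e 2) ^ n = yy M a e ^ n * e 2 := by
    intro n
    induction n with
    | zero => simp
    | succ n ih =>
      rw [pow_succ, ← mul_assoc, ih, pow_succ, mul_assoc, mul_assoc]
      congr 1
      unfold yy
      rw [mul_assoc (e 2 * a M.gg), ee e he, mul_assoc]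
  unfold test V TL TR
  simp only [pow_zero, mul_one]
  set α := a M.gz
  calc (e 0 * a M.gL * e 1 * (α - 1) ^ (M.S - 1) * a (M.gγ M.q0) * e 2 * (α - 2) ^ (M.S - 1)) *
        (a M.gg * e 2) ^ N * (a M.gR * e 0)
      = e 0 * a M.gL * e 1 * (α - 1) ^ (M.S - 1) * a (M.gγ M.q0) * (e 2 * (α - 2) ^ (M.S - 1)) *
        (a M.gg * e 2) ^ N * (a M.gR * e 0) := by noncomm_ring
    _ = e 0 * a M.gL * (e 1 * e 1) * (α - 1) ^ (M.S - 1) * a (M.gγ M.q0) *
        ((α - 2) ^ (M.S - 1) * (e 2 * e 2)) *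
        (a M.gg * e 2) ^ N * (a M.gR * e 0) := by rw [ee e he, ee e he, he3.eq]
    _ = e 0 * a M.gL * e 1 * (e 1 * (α - 1) ^ (M.S - 1)) * a (M.gγ M.q0) *
        (((α - 2) ^ (M.S - 1) * e 2) * (e 2 *
        (a M.gg * e 2) ^ N)) * (a M.gR * e 0) := by noncomm_ring
    _ = e 0 * a M.gL * e 1 * ((α - 1) ^ (M.S - 1) * e 1) * a (M.gγ M.q0) *
        ((e 2 * (α - 2) ^ (M.S - 1)) * (yy M a e ^ N * e 2)) * (a M.gR * e 0) := by
          rw [he1.eq, he3.eq, h1]
    _ = _ := by unfold γγ; noncomm_ring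

end deriv

end Pool.Agent.H.MP_7596fa_lc.T
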