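import Pool.Agent.H.MP_7596fa_lc.Ident

/-!
The standard identity of degree six on matrices that are upper triangular modulo a nilpotent `s`.
-/

namespace Pool.Agent.H.MP_7596fa_lc.T

open Equiv

/-- alternation -/
def Alt {A C : Type*} [AddCommGroup C] {n : ℕ} (f : (Fin n → A) → C) (X : Fin n → A) : C :=
  ∑ σ : Perm (Fin n), (Perm.sign σ : ℤ) • f fun i => X (σ i)

section alt

variable {A C : Type*} [AddCommGroup C] {n : ℕ}

theorem alt_perm (f : (Fin n → A) → C) (τ : Perm (Fin n)) (X : Fin n → A) :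
    Alt (fun X => f fun i => X (τ i)) X = (Perm.sign τ : ℤ) • Alt f X := by
  unfold Alt
  rw [Finset.smul_sum]
  refine Fintype.sum_equiv (Equiv.mulRight τ) _ _ fun σ => ?_
  rw [Equiv.coe_mulRight, smul_smul]
  congr 1
  rw [Perm.sign_mul, Units.val_mul, mul_comm, mul_assoc]
  have h : ((Perm.sign τ : ℤˣ) : ℤ) * ((Perm.sign τ : ℤˣ) : ℤ) = 1 := by
    rw [← Units.val_mul, Int.units_mul_self, Units.val_one]
  rw [h, mul_one]

theorem alt_add (f g : (Fin n → A) → C) (X : Fin n → A) :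
    Alt (fun X => f X + g X) X = Alt f X + Alt g X := by
  unfold Alt
  rw [← Finset.sum_add_distrib]
  refine Finset.sum_congr rfl fun σ _ => ?_
  rw [smul_add]

theorem alt_sub (f g : (Fin n → A) → C) (X : Fin n → A) :
    Alt (fun X => f X - g X) X = Alt f X - Alt g X := by
  unfold Alt
  rw [← Finset.sum_sub_distrib]
  refine Finset.sum_congr rfl fun σ _ => ?_
  rw [smul_sub]

theorem alt_neg (f : (Fin n → A) → C) (X : Fin n → A) :
    Alt (fun X => - f X) X = - Alt f X := by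
  unfold Alt
  rw [← Finset.sum_neg_distrib]
  refine Finset.sum_congr rfl fun σ _ => ?_
  rw [smul_neg]

/-- antisymmetrization in a transposition doubles the alternation -/
theorem alt_antisymm (f : (Fin n → A) → C) (i j : Fin n) (hij : i ≠ j) (X : Fin n → A) :
    Alt (fun X => f X - f fun k => X (swap i j k)) X = Alt f X + Alt f X := by
  rw [alt_sub, alt_perm, Perm.sign_swap hij]
  simp

/-- symmetric functions have zero alternation -/
theorem alt_symm (f : (Fin n → A) → C) (i j : Fin n) (hij : i ≠ j) (X : Fin n → A)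
    (h : ∀ X, (f fun k => X (swap i j k)) = f X) : Alt f X + Alt f X = 0 := by
  have h1 := alt_perm f (swap i j) X
  rw [Perm.sign_swap hij] at h1
  have h2 : Alt (fun X => f fun k => X (swap i j k)) X = Alt f X := by
    unfold Alt
    exact Finset.sum_congr rfl fun σ _ => congrArg _ (h fun i => X (σ i))
  rw [h2] at h1
  simp only [Units.val_neg, Units.val_one, neg_smul, one_smul] at h1
  nth_rewrite 1 [h1]
  simp

end alt

theorem alt_congr {A C : Type*} [AddCommGroup C] {n : ℕ} {f g : (Fin n → A) → C} (X : Fin n → A)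
    (h : ∀ σ : Perm (Fin n), (f fun i => X (σ i)) = g fun i => X (σ i)) : Alt f X = Alt g X := by
  unfold Alt
  exact Finset.sum_congr rfl fun σ _ => congrArg _ (h σ)

theorem stdPoly_succ {A : Type*} [Ring A] (n : ℕ) (a : Fin (n + 1) → A) :
    stdPoly (n + 1) a = ∑ p : Fin (n + 1), (if p = 0 then (1 : ℤ) else -1) •
      (a p * stdPoly n fun i => a (swap 0 p i.succ)) := by
  unfold stdPoly
  rw [← Equiv.sum_comp Perm.decomposeFin.symm, Fintype.sum_prod_type]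
  refine Finset.sum_congr rfl fun p _ => ?_
  rw [Finset.mul_sum, Finset.smul_sum]
  refine Finset.sum_congr rfl fun σ _ => ?_
  rw [Perm.decomposeFin.symm_sign, List.ofFn_succ, List.prod_cons,
    Perm.decomposeFin_symm_apply_zero, mul_smul_comm, smul_smul]
  congr 1
  · push_cast
    split_ifs <;> simp
  · congr 2
    simp only [Perm.decomposeFin_symm_apply_succ]

section s6

variable {C : Type*} [CommRing C] {s : C}

/-- entries below the diagonal are multiples of `s` -/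
def Low (s : C) (X : Matrix (Fin 3) (Fin 3) C) : Prop := ∀ i j, j < i → s ∣ X i j

/-- entries on and below the diagonal are multiples of `s` -/
def SU (s : C) (X : Matrix (Fin 3) (Fin 3) C) : Prop := ∀ i j, j ≤ i → s ∣ X i j

theorem low_mul {X Y : Matrix (Fin 3) (Fin 3) C} (hX : Low s X) (hY : Low s Y) : Low s (X * Y) := by
  intro i j hij
  rw [Matrix.mul_apply]
  refine Finset.dvd_sum fun k _ => ?_
  rcases lt_or_ge k i with h | h
  · exact (hX i k h).mul_right _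
  · exact (hY k j (lt_of_lt_of_le hij h)).mul_left _

theorem comm_SU {X Y : Matrix (Fin 3) (Fin 3) C} (hX : Low s X) (hY : Low s Y) :
    SU s (X * Y - Y * X) := by
  intro i j hij
  rcases lt_or_eq_of_le hij with h | h
  · rw [Matrix.sub_apply]
    exact dvd_sub (low_mul hX hY i j h) (low_mul hY hX i j h)
  · subst h
    rw [Matrix.sub_apply, Matrix.mul_apply, Matrix.mul_apply, ← Finset.sum_sub_distrib]
    refine Finset.dvd_sum fun k _ => ?_
    rcases lt_trichotomy k j with h | h | h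
    · exact dvd_sub ((hX j k h).mul_right _) ((hY j k h).mul_right _)
    · subst h
      rw [mul_comm, sub_self]; exact dvd_zero _
    · exact dvd_sub ((hY k j h).mul_left _) ((hX k j h).mul_left _)

theorem triple (hs : s * s = 0) {P K1 K2 K3 Q : Matrix (Fin 3) (Fin 3) C} (h1 : SU s K1)
    (h2 : SU s K2) (h3 : SU s K3) (hQ : Low s Q) :
    (P * (K1 * K2 * K3) * Q) 0 0 = P 0 0 * K1 0 1 * K2 1 2 * K3 2 0 * Q 0 0 := by
  have e0 : P * (K1 * K2 * K3) * Q = P * (K1 * (K2 * (K3 * Q))) := by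
    simp only [Matrix.mul_assoc]
  obtain ⟨q1, hq1⟩ := hQ 1 0 (by decide)
  obtain ⟨q2, hq2⟩ := hQ 2 0 (by decide)
  obtain ⟨a00, ha00⟩ := h3 0 0 le_rfl
  obtain ⟨a10, ha10⟩ := h3 1 0 (by decide)
  obtain ⟨a11, ha11⟩ := h3 1 1 le_rfl
  obtain ⟨a20, ha20⟩ := h3 2 0 (by decide)
  obtain ⟨a21, ha21⟩ := h3 2 1 (by decide)
  obtain ⟨a22, ha22⟩ := h3 2 2 le_rfl
  obtain ⟨b00, hb00⟩ := h2 0 0 le_rfl
  obtain ⟨b10, hb10⟩ := h2 1 0 (by decide)
  obtain ⟨b11, hb11⟩ := h2 1 1 le_rfl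
  obtain ⟨b20, hb20⟩ := h2 2 0 (by decide)
  obtain ⟨b21, hb21⟩ := h2 2 1 (by decide)
  obtain ⟨b22, hb22⟩ := h2 2 2 le_rfl
  obtain ⟨c00, hc00⟩ := h1 0 0 le_rfl
  obtain ⟨c10, hc10⟩ := h1 1 0 (by decide)
  obtain ⟨c11, hc11⟩ := h1 1 1 le_rfl
  obtain ⟨c20, hc20⟩ := h1 2 0 (by decide)
  obtain ⟨c21, hc21⟩ := h1 2 1 (by decide)
  obtain ⟨c22, hc22⟩ := h1 2 2 le_rfl
  -- first step
  have f0 : (K3 * Q) 0 0 = s * (a00 * Q 0 0 + K3 0 1 * q1 + K3 0 2 * q2) := by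
    rw [Matrix.mul_apply, Fin.sum_univ_three, hq1, hq2, ha00]; ring
  have f1 : (K3 * Q) 1 0 = s * (a10 * Q 0 0 + K3 1 2 * q2) := by
    rw [Matrix.mul_apply, Fin.sum_univ_three, hq1, hq2, ha10, ha11]
    linear_combination (a11 * q1) * hs
  have f2 : (K3 * Q) 2 0 = s * (a20 * Q 0 0) := by
    rw [Matrix.mul_apply, Fin.sum_univ_three, hq1, hq2, ha20, ha21, ha22]
    linear_combination (a21 * q1 + a22 * q2) * hs
  set u0 := a00 * Q 0 0 + K3 0 1 * q1 + K3 0 2 * q2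
  set u1 := a10 * Q 0 0 + K3 1 2 * q2
  set u2 := a20 * Q 0 0
  have g0 : (K2 * (K3 * Q)) 0 0 = s * (K2 0 1 * u1 + K2 0 2 * u2) := by
    rw [Matrix.mul_apply, Fin.sum_univ_three, f0, f1, f2, hb00]
    linear_combination (b00 * u0) * hs
  have g1 : (K2 * (K3 * Q)) 1 0 = s * (K2 1 2 * u2) := by
    rw [Matrix.mul_apply, Fin.sum_univ_three, f0, f1, f2, hb10, hb11]
    linear_combination (b10 * u0 + b11 * u1) * hs
  have g2 : (K2 * (K3 * Q)) 2 0 = 0 := by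
    rw [Matrix.mul_apply, Fin.sum_univ_three, f0, f1, f2, hb20, hb21, hb22]
    linear_combination (b20 * u0 + b21 * u1 + b22 * u2) * hs
  set v0 := K2 0 1 * u1 + K2 0 2 * u2
  have k0 : (K1 * (K2 * (K3 * Q))) 0 0 = K1 0 1 * (s * (K2 1 2 * u2)) := by
    rw [Matrix.mul_apply, Fin.sum_univ_three, g0, g1, g2, hc00]
    linear_combination (c00 * v0) * hs
  have k1 : (K1 * (K2 * (K3 * Q))) 1 0 = 0 := by
    rw [Matrix.mul_apply, Fin.sum_univ_three, g0, g1, g2, hc10, hc11]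
    linear_combination (c10 * v0 + c11 * (K2 1 2 * u2)) * hs
  have k2 : (K1 * (K2 * (K3 * Q))) 2 0 = 0 := by
    rw [Matrix.mul_apply, Fin.sum_univ_three, g0, g1, g2, hc20, hc21]
    linear_combination (c20 * v0 + c21 * (K2 1 2 * u2)) * hs
  rw [e0, Matrix.mul_apply, Fin.sum_univ_three, k0, k1, k2, ha20]
  change P 0 0 * (K1 0 1 * (s * (K2 1 2 * (a20 * Q 0 0)))) + _ + _ = _
  ring

theorem comm01 {X Y : Matrix (Fin 3) (Fin 3) C} (hX : Low s X) (hY : Low s Y) :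
    ∃ e, (X * Y - Y * X) 0 1 = X 0 1 * (Y 1 1 - Y 0 0) - Y 0 1 * (X 1 1 - X 0 0) + s * e := by
  obtain ⟨x, hx⟩ := hX 2 1 (by decide)
  obtain ⟨y, hy⟩ := hY 2 1 (by decide)
  refine ⟨X 0 2 * y - Y 0 2 * x, ?_⟩
  rw [Matrix.sub_apply, Matrix.mul_apply, Matrix.mul_apply, Fin.sum_univ_three, Fin.sum_univ_three,
    hx, hy]
  ring

theorem comm12 {X Y : Matrix (Fin 3) (Fin 3) C} (hX : Low s X) (hY : Low s Y) :
    ∃ e, (X * Y - Y * X) 1 2 = X 1 2 * (Y 2 2 - Y 1 1) - Y 1 2 * (X 2 2 - X 1 1) + s * e := by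
  obtain ⟨x, hx⟩ := hX 1 0 (by decide)
  obtain ⟨y, hy⟩ := hY 1 0 (by decide)
  refine ⟨x * Y 0 2 - y * X 0 2, ?_⟩
  rw [Matrix.sub_apply, Matrix.mul_apply, Matrix.mul_apply, Fin.sum_univ_three, Fin.sum_univ_three,
    hx, hy]
  ring

theorem comm20 (hs : s * s = 0) {X Y : Matrix (Fin 3) (Fin 3) C} (hX : Low s X) (hY : Low s Y) :
    (X * Y - Y * X) 2 0 = X 2 0 * (Y 0 0 - Y 2 2) - Y 2 0 * (X 0 0 - X 2 2) := by
  obtain ⟨x, hx⟩ := hX 1 0 (by decide)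
  obtain ⟨y, hy⟩ := hY 1 0 (by decide)
  obtain ⟨x', hx'⟩ := hX 2 1 (by decide)
  obtain ⟨y', hy'⟩ := hY 2 1 (by decide)
  rw [Matrix.sub_apply, Matrix.mul_apply, Matrix.mul_apply, Fin.sum_univ_three, Fin.sum_univ_three,
    hx, hy, hx', hy']
  linear_combination (x' * y - y' * x) * hs

/-- the product of three commutators -/
theorem triple_comm (hs : s * s = 0) {P Q X0 X1 X2 X3 X4 X5 : Matrix (Fin 3) (Fin 3) C}
    (h0 : Low s X0) (h1 : Low s X1) (h2 : Low s X2) (h3 : Low s X3) (h4 : Low s X4)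
    (h5 : Low s X5) (hQ : Low s Q) :
    (P * ((X0 * X1 - X1 * X0) * (X2 * X3 - X3 * X2) * (X4 * X5 - X5 * X4)) * Q) 0 0 =
      P 0 0 * (X0 0 1 * (X1 1 1 - X1 0 0) - X1 0 1 * (X0 1 1 - X0 0 0)) *
        (X2 1 2 * (X3 2 2 - X3 1 1) - X3 1 2 * (X2 2 2 - X2 1 1)) *
        (X4 2 0 * (X5 0 0 - X5 2 2) - X5 2 0 * (X4 0 0 - X4 2 2)) * Q 0 0 := by
  rw [triple hs (comm_SU h0 h1) (comm_SU h2 h3) (comm_SU h4 h5) hQ, comm20 hs h4 h5]
  obtain ⟨e, he⟩ := comm01 h0 h1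
  obtain ⟨e', he'⟩ := comm12 h2 h3
  rw [he, he']
  obtain ⟨x, hx⟩ := h4 2 0 (by decide)
  obtain ⟨y, hy⟩ := h5 2 0 (by decide)
  rw [hx, hy]
  set A := X0 0 1 * (X1 1 1 - X1 0 0) - X1 0 1 * (X0 1 1 - X0 0 0)
  set B := X2 1 2 * (X3 2 2 - X3 1 1) - X3 1 2 * (X2 2 2 - X2 1 1)
  set D := x * (X5 0 0 - X5 2 2) - y * (X4 0 0 - X4 2 2)
  linear_combination (P 0 0 * Q 0 0 * D * (e * B + A * e' + s * e * e')) * hs

/-- the monomial -/
def f0 (P Q : Matrix (Fin 3) (Fin 3) C) (X : Fin 6 → Matrix (Fin 3) (Fin 3) C) : C :=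
  (P * (X 0 * X 1 * X 2 * X 3 * X 4 * X 5) * Q) 0 0

/-- the corresponding product of linear forms -/
def h0 (p q : C) (X : Fin 6 → Matrix (Fin 3) (Fin 3) C) : C :=
  p * (X 0 0 1 * (X 1 1 1 - X 1 0 0)) * (X 2 1 2 * (X 3 2 2 - X 3 1 1)) *
    (X 4 2 0 * (X 5 0 0 - X 5 2 2)) * q

/-- antisymmetrization in three transpositions -/
def anti {A C : Type*} [AddCommGroup C] (f : (Fin 6 → A) → C) (X : Fin 6 → A) : C :=
  ((f X - f fun k => X (swap 0 1 k)) -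
    ((f fun k => X (swap 2 3 k)) - f fun k => X (swap 2 3 (swap 0 1 k)))) -
  (((f fun k => X (swap 4 5 k)) - f fun k => X (swap 4 5 (swap 0 1 k))) -
    ((f fun k => X (swap 4 5 (swap 2 3 k))) - f fun k => X (swap 4 5 (swap 2 3 (swap 0 1 k)))))

theorem alt_anti {A C : Type*} [AddCommGroup C] (f : (Fin 6 → A) → C) (X : Fin 6 → A) :
    Alt (anti f) X = (8 : ℤ) • Alt f X := by
  have e1 := alt_antisymm f 0 1 (by decide) X
  have e2 := alt_antisymm (fun X => f X - f fun k => X (swap 0 1 k)) 2 3 (by decide) X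
  have e3 := alt_antisymm (fun X => (f X - f fun k => X (swap 0 1 k)) -
    ((f fun k => X (swap 2 3 k)) - f fun k => X (swap 2 3 (swap 0 1 k)))) 4 5 (by decide) X
  have e4 : Alt (anti f) X = Alt (fun X => (f X - f fun k => X (swap 0 1 k)) -
    ((f fun k => X (swap 2 3 k)) - f fun k => X (swap 2 3 (swap 0 1 k)))) X +
    Alt (fun X => (f X - f fun k => X (swap 0 1 k)) -
    ((f fun k => X (swap 2 3 k)) - f fun k => X (swap 2 3 (swap 0 1 k)))) X := e3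
  have e5 : Alt (fun X => (f X - f fun k => X (swap 0 1 k)) -
    ((f fun k => X (swap 2 3 k)) - f fun k => X (swap 2 3 (swap 0 1 k)))) X =
    Alt (fun X => f X - f fun k => X (swap 0 1 k)) X +
    Alt (fun X => f X - f fun k => X (swap 0 1 k)) X := e2
  rw [e4, e5, e1]
  module

theorem anti_f0_aux (P Q x0 x1 x2 x3 x4 x5 : Matrix (Fin 3) (Fin 3) C) :
    (((P * (x0 * x1 * x2 * x3 * x4 * x5) * Q - P * (x1 * x0 * x2 * x3 * x4 * x5) * Q) -
    (P * (x0 * x1 * x3 * x2 * x4 * x5) * Q - P * (x1 * x0 * x3 * x2 * x4 * x5) * Q)) -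
    ((P * (x0 * x1 * x2 * x3 * x5 * x4) * Q - P * (x1 * x0 * x2 * x3 * x5 * x4) * Q) -
    (P * (x0 * x1 * x3 * x2 * x5 * x4) * Q - P * (x1 * x0 * x3 * x2 * x5 * x4) * Q))) =
    P * ((x0 * x1 - x1 * x0) * (x2 * x3 - x3 * x2) * (x4 * x5 - x5 * x4)) * Q := by
  noncomm_ring

theorem anti_f0 (P Q : Matrix (Fin 3) (Fin 3) C) (X : Fin 6 → Matrix (Fin 3) (Fin 3) C) :
    anti (f0 P Q) X = (P * ((X 0 * X 1 - X 1 * X 0) * (X 2 * X 3 - X 3 * X 2) *
      (X 4 * X 5 - X 5 * X 4)) * Q) 0 0 := by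
  rw [← anti_f0_aux P Q (X 0) (X 1) (X 2) (X 3) (X 4) (X 5)]
  rfl

theorem anti_h0 (p q : C) (X : Fin 6 → Matrix (Fin 3) (Fin 3) C) :
    anti (h0 p q) X = p * (X 0 0 1 * (X 1 1 1 - X 1 0 0) - X 1 0 1 * (X 0 1 1 - X 0 0 0)) *
        (X 2 1 2 * (X 3 2 2 - X 3 1 1) - X 3 1 2 * (X 2 2 2 - X 2 1 1)) *
        (X 4 2 0 * (X 5 0 0 - X 5 2 2) - X 5 2 0 * (X 4 0 0 - X 4 2 2)) * q := by
  have e : anti (h0 p q) X =
    ((p * (X 0 0 1 * (X 1 1 1 - X 1 0 0)) * (X 2 1 2 * (X 3 2 2 - X 3 1 1)) *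
    (X 4 2 0 * (X 5 0 0 - X 5 2 2)) * q -
    p * (X 1 0 1 * (X 0 1 1 - X 0 0 0)) * (X 2 1 2 * (X 3 2 2 - X 3 1 1)) *
    (X 4 2 0 * (X 5 0 0 - X 5 2 2)) * q) -
    (p * (X 0 0 1 * (X 1 1 1 - X 1 0 0)) * (X 3 1 2 * (X 2 2 2 - X 2 1 1)) *
    (X 4 2 0 * (X 5 0 0 - X 5 2 2)) * q -
    p * (X 1 0 1 * (X 0 1 1 - X 0 0 0)) * (X 3 1 2 * (X 2 2 2 - X 2 1 1)) *
    (X 4 2 0 * (X 5 0 0 - X 5 2 2)) * q)) -
    ((p * (X 0 0 1 * (X 1 1 1 - X 1 0 0)) * (X 2 1 2 * (X 3 2 2 - X 3 1 1)) *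
    (X 5 2 0 * (X 4 0 0 - X 4 2 2)) * q -
    p * (X 1 0 1 * (X 0 1 1 - X 0 0 0)) * (X 2 1 2 * (X 3 2 2 - X 3 1 1)) *
    (X 5 2 0 * (X 4 0 0 - X 4 2 2)) * q) -
    (p * (X 0 0 1 * (X 1 1 1 - X 1 0 0)) * (X 3 1 2 * (X 2 2 2 - X 2 1 1)) *
    (X 5 2 0 * (X 4 0 0 - X 4 2 2)) * q -
    p * (X 1 0 1 * (X 0 1 1 - X 0 0 0)) * (X 3 1 2 * (X 2 2 2 - X 2 1 1)) *
    (X 5 2 0 * (X 4 0 0 - X 4 2 2)) * q)) := rfl
  rw [e]
  ring

theorem alt_h0 (h2 : ∀ c : C, c + c = 0 → c = 0) (p q : C)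
    (X : Fin 6 → Matrix (Fin 3) (Fin 3) C) : Alt (h0 p q) X = 0 := by
  let ha : (Fin 6 → Matrix (Fin 3) (Fin 3) C) → C := fun X =>
    p * (X 0 0 1 * (X 1 1 1 - X 1 0 0)) * (X 2 1 2 * (X 3 2 2 - X 3 1 1)) *
    (X 4 2 0 * (X 5 1 1 - X 5 0 0)) * q
  let hb : (Fin 6 → Matrix (Fin 3) (Fin 3) C) → C := fun X =>
    p * (X 0 0 1 * (X 1 1 1 - X 1 0 0)) * (X 2 1 2 * (X 3 2 2 - X 3 1 1)) *
    (X 4 2 0 * (X 5 2 2 - X 5 1 1)) * q
  have e : Alt (h0 p q) X = Alt (fun X => - (ha X + hb X)) X := by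
    refine alt_congr X fun σ => ?_
    simp only [h0, ha, hb]
    ring
  have e2 : Alt (fun X => - (ha X + hb X)) X = - (Alt ha X + Alt hb X) := by
    rw [alt_neg (fun X => ha X + hb X), alt_add]
  have a1 : Alt ha X = 0 := h2 _ (alt_symm ha 1 5 (by decide) X (by
    intro X
    change p * (X 0 0 1 * (X 5 1 1 - X 5 0 0)) * (X 2 1 2 * (X 3 2 2 - X 3 1 1)) *
      (X 4 2 0 * (X 1 1 1 - X 1 0 0)) * q = _
    simp only [ha]
    ring))
  have a2 : Alt hb X = 0 := h2 _ (alt_symm hb 3 5 (by decide) X (by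
    intro X
    change p * (X 0 0 1 * (X 1 1 1 - X 1 0 0)) * (X 2 1 2 * (X 5 2 2 - X 5 1 1)) *
      (X 4 2 0 * (X 3 2 2 - X 3 1 1)) * q = _
    simp only [hb]
    ring))
  rw [e, e2, a1, a2]
  simp

theorem s6_zero (h2 : ∀ c : C, c + c = 0 → c = 0) (hs : s * s = 0)
    (P Q : Matrix (Fin 3) (Fin 3) C) (hQ : Low s Q) (X : Fin 6 → Matrix (Fin 3) (Fin 3) C)
    (hX : ∀ i, Low s (X i)) : (P * stdPoly 6 X * Q) 0 0 = 0 := by
  have e1 : (P * stdPoly 6 X * Q) 0 0 = Alt (f0 P Q) X := by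
    unfold stdPoly Alt f0
    rw [Finset.mul_sum, Finset.sum_mul, Matrix.sum_apply]
    refine Finset.sum_congr rfl fun σ _ => ?_
    rw [mul_smul_comm, smul_mul_assoc, Matrix.smul_apply]
    congr 4
    simp [List.ofFn_succ, mul_assoc]
  have e2 : Alt (anti (f0 P Q)) X = Alt (anti (h0 (P 0 0) (Q 0 0))) X := by
    refine alt_congr X fun σ => ?_
    rw [anti_f0, anti_h0]
    exact triple_comm hs (hX _) (hX _) (hX _) (hX _) (hX _) (hX _) hQ
  rw [alt_anti, alt_anti, alt_h0 h2, smul_zero] at e2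
  rw [e1]
  have h8 : (8 : ℤ) • Alt (f0 P Q) X = ((Alt (f0 P Q) X + Alt (f0 P Q) X) +
    (Alt (f0 P Q) X + Alt (f0 P Q) X)) + ((Alt (f0 P Q) X + Alt (f0 P Q) X) +
    (Alt (f0 P Q) X + Alt (f0 P Q) X)) := by module
  rw [h8] at e2
  exact h2 _ (h2 _ (h2 _ e2))

theorem sn_zero (h2 : ∀ c : C, c + c = 0 → c = 0) (hs : s * s = 0) (n : ℕ) (hn : 6 ≤ n) :
    ∀ (P Q : Matrix (Fin 3) (Fin 3) C), Low s Q → ∀ (X : Fin n → Matrix (Fin 3) (Fin 3) C),
    (∀ i, Low s (X i)) → (P * stdPoly n X * Q) 0 0 = 0 := by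
  induction n, hn using Nat.le_induction with
  | base => exact fun P Q hQ X hX => s6_zero h2 hs P Q hQ X hX
  | succ n hn ih =>
    intro P Q hQ X hX
    rw [stdPoly_succ, Finset.mul_sum, Finset.sum_mul, Matrix.sum_apply]
    refine Finset.sum_eq_zero fun p _ => ?_
    rw [mul_smul_comm, smul_mul_assoc, Matrix.smul_apply, ← mul_assoc P, ih _ Q hQ _ fun i => hX _,
      smul_zero]

end s6

theorem low_lift {F C X : Type*} [Field F] [CommRing C] [Algebra F C] {s : C}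
    (m : X → Matrix (Fin 3) (Fin 3) C) (hm : ∀ x, Low s (m x)) (b : FreeAlgebra F X) :
    Low s (FreeAlgebra.lift F m b) := by
  induction b using FreeAlgebra.induction with
  | grade0 k =>
    intro i j hij
    rw [AlgHom.commutes, Matrix.algebraMap_matrix_apply, if_neg (ne_of_gt hij)]
    exact dvd_zero _
  | grade1 g => rw [FreeAlgebra.lift_ι_apply]; exact hm g
  | mul a b ha hb => rw [map_mul]; exact low_mul ha hb
  | add a b ha hb =>
    intro i j hij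
    rw [map_add, Matrix.add_apply]
    exact dvd_add (ha i j hij) (hb i j hij)

end Pool.Agent.H.MP_7596fa_lc.T
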