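import Pool.Agent.H.MP_7596fa_lc.T.Conc
import Pool.Agent.H.MP_7596fa_lc.T.S6
import Pool.Agent.H.MP_7596fa_lc.Final

/-!
Assembly of the undecidability theorem, three positions.
-/

namespace Pool.Agent.H.MP_7596fa_lc.T

universe u

open TestData

section core

variable (M : Mach) (F : Type*) [Field F] [CharZero F]

/-- the element `W` in the free algebra -/
noncomputable def fW (D : ℕ) (E : Fin 3 → Polynomial ℤ) : FreeAlgebra F M.Gen :=
  WW M (FreeAlgebra.ι F) (idem F D E (FreeAlgebra.ι F M.gz))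

theorem core (d D : ℕ) (hd : 0 < d) (hD : D ≠ 0) (E : Fin 3 → Polynomial ℤ)
    (hE : ∀ i k : Fin 3, Pp F M.S k ^ (d * d) ∣
      (E i).map (Int.castRingHom F) - Polynomial.C (if i = k then (D : F) else 0))
    (I : Set (FreeAlgebra F M.Gen))
    (hI1 : stdPoly d (fun i => fW M F D E ^ d * FreeAlgebra.ι F M.gz ^ (i : ℕ)) ∈
      TwoSidedIdeal.span (I ∪ {frel M F D E}))
    (hI2 : ∀ g ∈ I, ∀ a b, (TD M F).φ (a * g * b) 0 0 = 0) (N : ℕ) :
    ftest M F D E N ∈ TwoSidedIdeal.span (I ∪ {frel M F D E}) ↔ M.Halts (M.q0, N) := by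
  constructor
  · intro h
    by_contra hN
    exact test_not_mem (TD M F) (d * d) D (Nat.mul_pos hd hd) hD E hE I hI2 N (TD_test M F N hN) h
  · intro hN
    set J := TwoSidedIdeal.span (I ∪ {frel M F D E}) with hJ
    let π : FreeAlgebra F M.Gen →ₐ[F] J.ringCon.Quotient :=
      { J.ringCon.mk' with commutes' := fun r => rfl }
    have hπ : ∀ x, π x = 0 ↔ x ∈ J := by
      intro x
      rw [TwoSidedIdeal.mem_iff]
      exact RingCon.eq _
    rw [← hπ]
    have h1 : π (ftest M F D E N) = test M (fun g => π (FreeAlgebra.ι F g))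
        (idem F D E (π (FreeAlgebra.ι F M.gz))) N := by
      have := map_test M π.toRingHom (FreeAlgebra.ι F) (idem F D E (FreeAlgebra.ι F M.gz)) N
      change π _ = _ at this
      unfold ftest
      rw [this]
      congr 1
      funext i
      exact map_idem π D E _ i
    have h2 : π (frel M F D E) = relator M (fun g => π (FreeAlgebra.ι F g))
        (idem F D E (π (FreeAlgebra.ι F M.gz))) := by
      have := map_relator M π.toRingHom (FreeAlgebra.ι F) (idem F D E (FreeAlgebra.ι F M.gz))
      change π _ = _ at this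
      unfold frel
      rw [this]
      congr 1
      funext i
      exact map_idem π D E _ i
    have h3 : π (fW M F D E) = WW M (fun g => π (FreeAlgebra.ι F g))
        (idem F D E (π (FreeAlgebra.ι F M.gz))) := by
      have := map_WW M π.toRingHom (FreeAlgebra.ι F) (idem F D E (FreeAlgebra.ι F M.gz))
      change π _ = _ at this
      unfold fW
      rw [this]
      congr 1
      funext i
      exact map_idem π D E _ i
    have h4 : π (frel M F D E) = 0 := by
      rw [hπ]
      exact TwoSidedIdeal.subset_span (Or.inr rfl)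
    have h5 : π (stdPoly d (fun i => fW M F D E ^ d * FreeAlgebra.ι F M.gz ^ (i : ℕ))) = 0 := by
      rw [hπ]
      exact hI1
    rw [h1]
    apply derivation (F := F) M d D hD E hE _ _ _ N hN
    · rw [← h2, h4]
    · rw [← h3]
      have := map_stdPoly π.toRingHom d
        (fun i => fW M F D E ^ d * FreeAlgebra.ι F M.gz ^ (i : ℕ))
      change π _ = _ at this
      rw [h5] at this
      rw [this]
      have h6 : (fun i : Fin d => π (fW M F D E) ^ d * π (FreeAlgebra.ι F M.gz) ^ (i : ℕ)) =
          fun i : Fin d => π.toRingHom (fW M F D E ^ d * FreeAlgebra.ι F M.gz ^ (i : ℕ)) := by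
        funext i
        change π _ ^ d * π _ ^ (i : ℕ) = π _
        rw [map_mul, map_pow, map_pow]
      rw [h6]

end core

section zero

variable (M : Mach)

theorem rel_zero {B : Type*} [Ring B] (e : Fin 3 → B) (r : M.Rel) :
    rel M (fun _ => 0) e r = 0 := by
  rcases r with q | t | t | t | t | _ <;> simp [rel, xx, yy, γγ, uu, uu', ww, ww', mm, vv]

theorem WW_zero {B : Type*} [Ring B] (e : Fin 3 → B) : WW M (fun _ => 0) e = 0 := by
  unfold WW
  refine Finset.sum_eq_zero fun i _ => Finset.sum_eq_zero fun j _ => ?_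
  have h : blk M (fun _ => 0) e i j = 0 := by
    have hρ : rho M (fun _ => 0) e = 0 := by
      unfold rho
      refine Finset.sum_eq_zero fun s _ => ?_
      rw [rel_zero]; simp
    unfold blk
    split <;> simp [hρ, uu, uu', ww, ww']
  rw [h]; simp

theorem aug_fW (F : Type*) [Field F] (D : ℕ) (E : Fin 3 → Polynomial ℤ) :
    Mach.aug F M.Gen (fW M F D E) = 0 := by
  have h := map_WW M (Mach.aug F M.Gen).toRingHom (FreeAlgebra.ι F)
    (idem F D E (FreeAlgebra.ι F M.gz))
  change Mach.aug F M.Gen _ = _ at h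
  unfold fW
  rw [h]
  have h2 : (fun g => (Mach.aug F M.Gen).toRingHom (FreeAlgebra.ι F g)) = fun _ => 0 := by
    funext g
    change FreeAlgebra.lift F _ (FreeAlgebra.ι F g) = _
    rw [FreeAlgebra.lift_ι_apply]
  rw [h2]
  exact WW_zero M _

end zero

section integral

variable (M : Mach) (F : Type*) [Field F]

theorem qz_idem {X : Type*} (e : M.Gen → X) (D : ℕ) (hD : (D : F) ≠ 0) (hD0 : D ≠ 0)
    (E : Fin 3 → Polynomial ℤ)
    (i : Fin 3) : QZ F (idem F D E (FreeAlgebra.ι F (e M.gz)) i) := by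
  refine ⟨D, hD0, ?_⟩
  unfold idem
  rw [smul_smul, mul_inv_cancel₀ hD, one_smul]
  exact aeval_mem_Zr F (e M.gz) (E i)

variable {X : Type*} (e : M.Gen → X) (ε : Fin 3 → FreeAlgebra F X) (hε : ∀ i, QZ F (ε i))

include hε

theorem qc_sand (x : X) (i j : Fin 3) : QC F (ε i * FreeAlgebra.ι F x * ε j) :=
  ((Mach.qc_ι F x).qz_mul F (hε i)).mul_qz F (hε j)

theorem qc_rel (r : M.Rel) : QC F (rel M (fun g => FreeAlgebra.ι F (e g)) ε r) := by
  have h : ∀ x i j, QC F (ε i * FreeAlgebra.ι F x * ε j) := fun x i j => qc_sand F ε hε x i j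
  rcases r with q | t | t | t | t | _ <;>
    simp only [rel, xx, yy, γγ, uu, uu', ww, ww', mm, vv]
  · exact ((h _ _ _).mul F (h _ _ _)).sub F ((h _ _ _).mul_qz F (((h _ _ _).qz F).pow F _))
  · exact ((h _ _ _).mul F ((h _ _ _).mul F (h _ _ _))).sub F
      (((h _ _ _).mul F (h _ _ _)).mul_qz F (((h _ _ _).qz F).pow F _))
  · exact ((h _ _ _).mul_qz F (((h _ _ _).qz F).pow F _)).sub F ((h _ _ _).mul F (h _ _ _))
  · exact ((h _ _ _).mul F (h _ _ _)).sub F
      (((h _ _ _).mul F (h _ _ _)).mul_qz F (((h _ _ _).qz F).pow F _))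
  · exact ((h _ _ _).mul F (h _ _ _)).sub F (h _ _ _)
  · exact h _ _ _

theorem qc_relator : QC F (relator M (fun g => FreeAlgebra.ι F (e g)) ε) := by
  have h : ∀ x i j, QC F (ε i * FreeAlgebra.ι F x * ε j) := fun x i j => qc_sand F ε hε x i j
  set z : FreeAlgebra F X := FreeAlgebra.ι F (e M.gz) with hz
  have hzm : z ∈ Zr (X := X) F := Subring.subset_closure ⟨_, rfl⟩
  have h1m : ∀ n, QZ F ((z - 1) ^ n) := fun n => qz_of_mem F
    (Subring.pow_mem _ (Subring.sub_mem _ hzm (Subring.one_mem _)) n)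
  have h2m : ∀ n, QZ F ((z - 2) ^ n) := fun n => qz_of_mem F
    (Subring.pow_mem _ (Subring.sub_mem _ hzm (ofNat_mem _ 2)) n)
  have hzc : QC F z := Mach.qc_ι F _
  have hρ : QC F (rho M (fun g => FreeAlgebra.ι F (e g)) ε) := by
    unfold rho
    refine QC.sum F _ _ fun s _ => ?_
    exact (((qc_rel M F e ε hε _).qz_mul F (h1m _)).mul_qz F (h2m _))
  have hblk : ∀ i j, QC F (blk M (fun g => FreeAlgebra.ι F (e g)) ε i j) := by
    intro i j
    unfold blk
    split
    · exact Mach.qc_ι F _
    · exact Mach.qc_ι F _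
    · exact (Mach.qc_ι F _).mul_qz F (h1m _)
    · exact (Mach.qc_ι F _).qz_mul F (h2m _)
    · exact hρ
    · simp only [uu, uu']
      exact (((Mach.qc_ι F _).mul_qz F (hε _)).mul_qz F (h1m _)).mul F ((h _ _ _).sub F (h _ _ _))
    · simp only [ww, ww']
      exact ((((h _ _ _).sub F (h _ _ _)).mul_qz F (h2m _)).mul_qz F (hε _)).mul F (Mach.qc_ι F _)
    · exact QC.zero F
  have hW : QC F (WW M (fun g => FreeAlgebra.ι F (e g)) ε) := by
    unfold WW
    exact QC.sum F _ _ fun i _ => QC.sum F _ _ fun j _ =>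
      ((hblk i j).qz_mul F (hε i)).mul_qz F (hε j)
  have hp : QC F (pz M (fun g => FreeAlgebra.ι F (e g))) := by
    unfold pz
    exact (hzc.mul_qz F (h1m _)).mul_qz F (h2m _)
  unfold relator
  exact hp.sub F ((hzc.mul F hW).sub F (hW.mul F hzc))

end integral

/-- coded version of the test elements -/
theorem coded_test (M : Mach) (F : Type*) [Field F] [CharZero F] {X : Type*} (e : M.Gen → X)
    (D : ℕ) (hD : D ≠ 0) (E : Fin 3 → Polynomial ℤ) :
    ∃ PL PY PR : Cd X, ∀ N, codeVal F (mulC (powC PL PY N) PR) =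
      (D : F) ^ (N + 4) • test M (fun g => FreeAlgebra.ι F (e g))
        (idem F D E (FreeAlgebra.ι F (e M.gz))) N := by
  have hD' : (D : F) ≠ 0 := Nat.cast_ne_zero.mpr hD
  set z : FreeAlgebra F X := FreeAlgebra.ι F (e M.gz) with hz
  set A : Fin 3 → FreeAlgebra F X := fun i =>
    Polynomial.aeval z ((E i).map (Int.castRingHom F)) with hA
  have hz' : z ∈ Zr (X := X) F := Subring.subset_closure ⟨_, rfl⟩
  have hAm : ∀ i, A i ∈ Zr (X := X) F := fun i => aeval_mem_Zr F (e M.gz) (E i)
  have h1m : ∀ n, (z - 1) ^ n ∈ Zr (X := X) F := fun n =>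
    Subring.pow_mem _ (Subring.sub_mem _ hz' (Subring.one_mem _)) n
  have h2m : ∀ n, (z - 2) ^ n ∈ Zr (X := X) F := fun n =>
    Subring.pow_mem _ (Subring.sub_mem _ hz' (ofNat_mem _ 2)) n
  have cL : Coded F (A 0 * FreeAlgebra.ι F (e M.gL) * A 1 * (z - 1) ^ (M.S - 1) *
      FreeAlgebra.ι F (e (M.gγ M.q0)) * A 2 * (z - 2) ^ (M.S - 1)) := by
    refine (coded_mul_Zr F (h2m _) (coded_mul_Zr F (hAm 2) (coded_mul F
      (coded_mul_Zr F (h1m _) (coded_mul_Zr F (hAm 1) (coded_mul_Zr F (hAm 0)
        (coded_ι F _)).2).1).1 (coded_ι F _))).1).1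
  have cY : Coded F (FreeAlgebra.ι F (e M.gg) * A 2) := (coded_mul_Zr F (hAm 2) (coded_ι F _)).1
  have cR : Coded F (FreeAlgebra.ι F (e M.gR) * A 0) := (coded_mul_Zr F (hAm 0) (coded_ι F _)).1
  obtain ⟨PL, hPL⟩ := cL
  obtain ⟨PY, hPY⟩ := cY
  obtain ⟨PR, hPR⟩ := cR
  refine ⟨PL, PY, PR, fun N => ?_⟩
  rw [codeVal_mul, codeVal_powC, hPL, hPY, hPR]
  have hi : ∀ i, idem F D E z i = (D : F)⁻¹ • A i := fun i => rfl
  unfold test
  simp only [hi, ← hz, smul_mul_assoc, mul_smul_comm, smul_smul, smul_pow]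
  have hc' : ∀ c : F, c = 1 → ∀ v : FreeAlgebra F X, v = c • v := by
    rintro c rfl v; rw [one_smul]
  refine hc' _ ?_ _
  rw [pow_add, inv_pow]
  field_simp

/-- The master theorem with three positions. -/
theorem master (F : Type u) [Field F] [CharZero F] (d : ℕ) (hd : 0 < d) :
    ∃ (k : ℕ) (f : FreeAlgebra F (Fin k)), QC F f ∧
      ∀ I : Set (FreeAlgebra F (Fin k)),
        (∀ a : Fin d → FreeAlgebra F (Fin k),
          (∀ i, FreeAlgebra.lift F (fun _ => (0 : F)) (a i) = 0) →
            stdPoly d a ∈ TwoSidedIdeal.span I) →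
        (∀ g ∈ I, ∀ (C : Type u) [CommRing C] [Algebra F C] (s : C), s * s = 0 →
          ∀ m : Fin k → Matrix (Fin 3) (Fin 3) C, (∀ x, Low s (m x)) →
          ∀ a b, FreeAlgebra.lift F m (a * g * b) 0 0 = 0) →
        ¬ ComputablePred fun P : Cd (Fin k) => codeVal F P ∈ TwoSidedIdeal.span (I ∪ {f}) := by
  obtain ⟨M, c, hM⟩ := exists_mach
  obtain ⟨D, E, hD, hE⟩ := exists_idem F M.S (d * d)
  let e : M.Gen ≃ Fin (Fintype.card M.Gen) := Fintype.equivFin M.Gen
  let Ψ := tr F e
  refine ⟨Fintype.card M.Gen, Ψ (frel M F D E), ?_, ?_⟩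
  · have h1 : Ψ (frel M F D E) = relator M (fun g => FreeAlgebra.ι F (e g))
        (idem F D E (FreeAlgebra.ι F (e M.gz))) := by
      have := map_relator M Ψ.toAlgHom.toRingHom (FreeAlgebra.ι F)
        (idem F D E (FreeAlgebra.ι F M.gz))
      change Ψ _ = _ at this
      unfold frel
      rw [this]
      congr 1
      · funext g
        exact tr_ι F e g
      · funext i
        have := map_idem Ψ.toAlgHom D E (FreeAlgebra.ι F M.gz) i
        refine this.trans ?_
        congr 1
        exact tr_ι F e M.gz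
    rw [h1]
    exact qc_relator M F e _ fun i => qz_idem M F e D (Nat.cast_ne_zero.mpr hD) hD E i
  · intro I hI1 hI2 hcomp
    apply hM
    obtain ⟨PL, PY, PR, hP⟩ := coded_test M F e D hD E
    have hred : ∀ N, codeVal F (mulC (powC PL PY N) PR) ∈
        TwoSidedIdeal.span (I ∪ {Ψ (frel M F D E)}) ↔ M.Halts (M.q0, N) := by
      intro N
      have h1 : Ψ (ftest M F D E N) = test M (fun g => FreeAlgebra.ι F (e g))
          (idem F D E (FreeAlgebra.ι F (e M.gz))) N := by
        have := map_test M Ψ.toAlgHom.toRingHom (FreeAlgebra.ι F)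
          (idem F D E (FreeAlgebra.ι F M.gz)) N
        change Ψ _ = _ at this
        unfold ftest
        rw [this]
        congr 1
        · funext g
          exact tr_ι F e g
        · funext i
          have := map_idem Ψ.toAlgHom D E (FreeAlgebra.ι F M.gz) i
          refine this.trans ?_
          congr 1
          exact tr_ι F e M.gz
      rw [hP N, ← h1]
      have h2 : (D : F) ^ (N + 4) • Ψ (ftest M F D E N) ∈
          TwoSidedIdeal.span (I ∪ {Ψ (frel M F D E)}) ↔
          Ψ (ftest M F D E N) ∈ TwoSidedIdeal.span (I ∪ {Ψ (frel M F D E)}) := by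
        have hD' : (D : F) ^ (N + 4) ≠ 0 := pow_ne_zero _ (Nat.cast_ne_zero.mpr hD)
        constructor
        · intro h
          have h3 := TwoSidedIdeal.mul_mem_left _ (algebraMap F _ ((D : F) ^ (N + 4))⁻¹) _ h
          rwa [← Algebra.smul_def, smul_smul, inv_mul_cancel₀ hD', one_smul] at h3
        · intro h
          rw [Algebra.smul_def]
          exact TwoSidedIdeal.mul_mem_left _ _ _ h
      rw [h2]
      have h3 := mem_span_of_map Ψ.toRingEquiv (I ∪ {Ψ (frel M F D E)}) (ftest M F D E N)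
      change Ψ _ ∈ _ ↔ _ at h3
      rw [h3]
      have h4 : (Ψ.toRingEquiv ⁻¹' (I ∪ {Ψ (frel M F D E)})) =
          (Ψ ⁻¹' I) ∪ {frel M F D E} := by
        ext g
        constructor
        · rintro (h | h)
          · exact Or.inl h
          · exact Or.inr (Ψ.injective h)
        · rintro (h | h)
          · exact Or.inl h
          · rw [Set.mem_singleton_iff] at h
            subst h
            exact Or.inr rfl
      rw [h4]
      apply core M F d D hd hD E hE
      · have h5 := hI1 (fun i => Ψ (fW M F D E ^ d * FreeAlgebra.ι F M.gz ^ (i : ℕ))) (by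
          intro i
          have h : (FreeAlgebra.lift F fun _ : Fin (Fintype.card M.Gen) => (0 : F)).comp
              Ψ.toAlgHom = Mach.aug F M.Gen := by
            ext x
            simp [Ψ, tr_ι, Mach.aug]
          have h2 := congrArg (fun φ => φ (fW M F D E ^ d * FreeAlgebra.ι F M.gz ^ (i : ℕ))) h
          refine h2.trans ?_
          rw [map_mul, map_pow, aug_fW M, zero_pow hd.ne', zero_mul])
        have h6 := map_stdPoly Ψ.toAlgHom.toRingHom d
          (fun i => fW M F D E ^ d * FreeAlgebra.ι F M.gz ^ (i : ℕ))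
        change Ψ _ = stdPoly d fun i => Ψ _ at h6
        rw [← h6] at h5
        have h7 := (mem_span_of_map Ψ.toRingEquiv I _).mp h5
        exact TwoSidedIdeal.span_mono Set.subset_union_left h7
      · intro g hg a b
        have h5 := hI2 _ hg (M.Cb F) (TD M F).s (TD M F).hs (fun x => (TD M F).mt (e.symm x))
          (fun x => (TD M F).mt_lower _) (Ψ a) (Ψ b)
        have h6 : (FreeAlgebra.lift F fun x => (TD M F).mt (e.symm x)).comp Ψ.toAlgHom =
            (TD M F).φ := by
          ext x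
          simp [Ψ, tr_ι, TestData.φ]
        have h7 := congrArg (fun φ => φ (a * g * b)) h6
        have h8 : (FreeAlgebra.lift F fun x => (TD M F).mt (e.symm x)) (Ψ (a * g * b)) =
          (TD M F).φ (a * g * b) := h7
        rw [← h8, map_mul Ψ, map_mul Ψ]
        exact h5
    refine ComputablePred.computable_of_manyOneReducible ?_ hcomp
    refine ⟨fun n => mulC (powC PL PY (2 ^ n * c)) PR, ?_, fun n => (hred _).symm⟩
    have hpow : Primrec fun n : ℕ => 2 ^ n * c := by
      refine Primrec.nat_mul.comp ?_ (Primrec.const c)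
      have : Primrec (Nat.rec 1 (fun _ x => x * 2) : ℕ → ℕ) :=
        Primrec.nat_rec₁ 1 (Primrec.nat_mul.comp Primrec.snd (Primrec.const 2))
      refine this.of_eq fun n => ?_
      induction n with
      | zero => rfl
      | succ n ih => rw [pow_succ, ← ih]
    exact (primrec_mulC.comp ((primrec_powC PL PY).comp hpow) (Primrec.const PR)).to_comp

/-- The master theorem with an integral relator. -/
theorem master2 (F : Type u) [Field F] [CharZero F] (d : ℕ) (hd : 0 < d) :
    ∃ (k : ℕ) (Q : Cd (Fin k)), ∀ I : Set (FreeAlgebra F (Fin k)),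
        (∀ a : Fin d → FreeAlgebra F (Fin k),
          (∀ i, FreeAlgebra.lift F (fun _ => (0 : F)) (a i) = 0) →
            stdPoly d a ∈ TwoSidedIdeal.span I) →
        (∀ g ∈ I, ∀ (C : Type u) [CommRing C] [Algebra F C] (s : C), s * s = 0 →
          ∀ m : Fin k → Matrix (Fin 3) (Fin 3) C, (∀ x, Low s (m x)) →
          ∀ a b, FreeAlgebra.lift F m (a * g * b) 0 0 = 0) →
        ¬ ComputablePred fun P : Cd (Fin k) =>
          codeVal F P ∈ TwoSidedIdeal.span (I ∪ {codeVal F Q}) := by
  obtain ⟨k, f, ⟨m, hm, Q, hQ⟩, hf⟩ := master F d hd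
  refine ⟨k, Q, fun I h1 h2 => ?_⟩
  have hm' : (m : F) ≠ 0 := Nat.cast_ne_zero.mpr hm
  have h3 : TwoSidedIdeal.span (I ∪ {codeVal F Q}) = TwoSidedIdeal.span (I ∪ {f}) := by
    rw [hQ]
    apply le_antisymm
    · rw [TwoSidedIdeal.span_le]
      rintro g (hg | hg)
      · exact TwoSidedIdeal.subset_span (Or.inl hg)
      · rw [Set.mem_singleton_iff] at hg
        subst hg
        change _ ∈ TwoSidedIdeal.span _
        rw [Algebra.smul_def]
        exact TwoSidedIdeal.mul_mem_left _ _ _ (TwoSidedIdeal.subset_span (Or.inr rfl))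
    · rw [TwoSidedIdeal.span_le]
      rintro g (hg | hg)
      · exact TwoSidedIdeal.subset_span (Or.inl hg)
      · rw [Set.mem_singleton_iff] at hg
        subst hg
        change _ ∈ TwoSidedIdeal.span _
        have h4 : (m : F) • g ∈ TwoSidedIdeal.span (I ∪ {(m : F) • g}) :=
          TwoSidedIdeal.subset_span (Or.inr rfl)
        have h5 := TwoSidedIdeal.mul_mem_left _ (algebraMap F _ (m : F)⁻¹) _ h4
        rwa [← Algebra.smul_def, smul_smul, inv_mul_cancel₀ hm', one_smul] at h5
  rw [h3]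
  exact hf I h1 h2

end Pool.Agent.H.MP_7596fa_lc.T
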