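import Pool.Agent.H.MP_7596fa_lc.T.Def
import Pool.Agent.H.MP_7596fa_lc.Gadget

/-!
Idempotents from the single relation: three idempotents.
-/

namespace Pool.Agent.H.MP_7596fa_lc.T

open Polynomial

/-- multiplicities of the roots `0,1,2` -/
def mult (S : ℕ) : Fin 3 → ℕ := ![1, S, S]

/-- the factors of `p` -/
noncomputable def Pp (F : Type*) [Field F] (S : ℕ) (i : Fin 3) : F[X] :=
  (X - C ((i : ℕ) : F)) ^ mult S i

theorem coprime_Pp (F : Type*) [Field F] [CharZero F] (S : ℕ) {i j : Fin 3} (h : i ≠ j) :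
    IsCoprime (Pp F S i) (Pp F S j) := by
  unfold Pp
  apply IsCoprime.pow
  apply Polynomial.isCoprime_X_sub_C_of_isUnit_sub
  rw [isUnit_iff_ne_zero, sub_ne_zero]
  intro h'
  apply h
  exact Fin.ext (Nat.cast_injective h')

/-- integral multiples of idempotents -/
theorem exists_idem (F : Type*) [Field F] [CharZero F] (S K : ℕ) :
    ∃ (D : ℕ) (E : Fin 3 → ℤ[X]), D ≠ 0 ∧ ∀ (i k : Fin 3),
      Pp F S k ^ K ∣ (E i).map (Int.castRingHom F) - C (if i = k then (D : F) else 0) := by
  have h1 : ∀ i : Fin 3, ∃ (E : ℚ[X]), ∀ k, Pp ℚ S k ^ K ∣ E - C (if i = k then 1 else 0) := by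
    intro i
    have hc : IsCoprime (Pp ℚ S i ^ K) (∏ j ∈ Finset.univ.erase i, Pp ℚ S j ^ K) := by
      apply IsCoprime.prod_right
      intro j hj
      exact (coprime_Pp ℚ S (Finset.ne_of_mem_erase hj).symm).pow
    obtain ⟨u, v, huv⟩ := hc
    refine ⟨v * ∏ j ∈ Finset.univ.erase i, Pp ℚ S j ^ K, ?_⟩
    intro k
    by_cases hik : i = k
    · subst hik
      rw [if_pos rfl]
      refine ⟨-u, ?_⟩
      rw [C_1, ← huv]; ring
    · rw [if_neg hik, C_0, sub_zero]
      exact Dvd.dvd.mul_left (Finset.dvd_prod_of_mem _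
        (Finset.mem_erase.mpr ⟨Ne.symm hik, Finset.mem_univ k⟩)) _
  choose E hE using h1
  choose D G hD hG using fun i => exists_int_mul (E i)
  refine ⟨∏ i, D i, fun i => C ((∏ j ∈ Finset.univ.erase i, D j : ℕ) : ℤ) * G i, ?_, ?_⟩
  · exact Finset.prod_ne_zero_iff.mpr fun i _ => hD i
  · intro i k
    have h2 : Pp ℚ S k ^ K ∣ (C ((∏ j ∈ Finset.univ.erase i, D j : ℕ) : ℤ) * G i).map
        (Int.castRingHom ℚ) - C (if i = k then ((∏ j, D j : ℕ) : ℚ) else 0) := by
      obtain ⟨t, ht⟩ := hE i k
      refine ⟨C ((∏ j, D j : ℕ) : ℚ) * t, ?_⟩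
      rw [mul_left_comm, ← ht, Polynomial.map_mul, hG i, Polynomial.map_C]
      have h3 : ((∏ j, D j : ℕ) : ℚ) =
          ((∏ j ∈ Finset.univ.erase i, D j : ℕ) : ℚ) * (D i : ℚ) := by
        rw [← Nat.cast_mul, Finset.prod_erase_mul _ _ (Finset.mem_univ i)]
      split_ifs with hik
      · rw [h3]
        simp only [C_mul, eq_intCast, Int.cast_natCast, C_1]
        ring
      · rw [h3]
        simp only [C_mul, eq_intCast, Int.cast_natCast, C_0]
        ring
    have h4 := Polynomial.map_dvd (algebraMap ℚ F) h2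
    rw [Polynomial.map_sub, Polynomial.map_pow, Polynomial.map_map] at h4
    have h5 : (algebraMap ℚ F).comp (Int.castRingHom ℚ) = Int.castRingHom F := RingHom.ext_int _ _
    rw [h5] at h4
    have h6 : (Pp ℚ S k).map (algebraMap ℚ F) = Pp F S k := by
      simp [Pp]
    have h7 : (C (if i = k then ((∏ j, D j : ℕ) : ℚ) else 0) : ℚ[X]).map (algebraMap ℚ F) =
        C (if i = k then ((∏ j, D j : ℕ) : F) else 0) := by
      rw [Polynomial.map_C]
      split_ifs <;> simp
    rw [h6, h7] at h4
    exact h4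

section algebra

variable {F B : Type*} [Field F] [CharZero F] [Ring B] [Algebra F B]

theorem aeval_zero (S K : ℕ) (z : B)
    (hz : (aeval z (∏ k, Pp F S k)) ^ K = 0) (Q : F[X]) (hQ : ∀ k, Pp F S k ^ K ∣ Q) :
    aeval z Q = 0 := by
  have h1 : (∏ k, Pp F S k ^ K) ∣ Q := by
    apply Finset.prod_dvd_of_coprime
    · intro i _ j _ hij
      exact (coprime_Pp F S hij).pow
    · intro k _; exact hQ k
  obtain ⟨t, rfl⟩ := h1
  rw [Finset.prod_pow, map_mul, map_pow, hz, zero_mul]

/-- the idempotents -/
noncomputable def idem (F : Type*) {B : Type*} [Field F] [Ring B] [Algebra F B] (D : ℕ)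
    (E : Fin 3 → ℤ[X]) (z : B) (i : Fin 3) : B :=
  (D : F)⁻¹ • aeval z ((E i).map (Int.castRingHom F))

theorem idem_mul (S K D : ℕ) (hD : D ≠ 0) (E : Fin 3 → ℤ[X])
    (hE : ∀ i k : Fin 3, Pp F S k ^ K ∣
      (E i).map (Int.castRingHom F) - C (if i = k then (D : F) else 0))
    (z : B) (hz : (aeval z (∏ k, Pp F S k)) ^ K = 0) (i j : Fin 3) :
    idem F D E z i * idem F D E z j = if i = j then idem F D E z i else 0 := by
  have hD' : (D : F) ≠ 0 := Nat.cast_ne_zero.mpr hD
  unfold idem
  rw [smul_mul_smul_comm, ← map_mul]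
  split_ifs with h
  · subst h
    have h1 : aeval z ((E i).map (Int.castRingHom F) * (E i).map (Int.castRingHom F) -
        C (D : F) * (E i).map (Int.castRingHom F)) = 0 := by
      apply aeval_zero S K z hz
      intro k
      obtain ⟨t, ht⟩ := hE i k
      have h2 : (E i).map (Int.castRingHom F) =
          Pp F S k ^ K * t + C (if i = k then (D : F) else 0) := by
        rw [← ht]; ring
      rw [h2]
      split_ifs
      · exact ⟨Pp F S k ^ K * t * t + C (D : F) * t, by ring⟩
      · exact ⟨Pp F S k ^ K * t * t - C (D : F) * t, by rw [C_0]; ring⟩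
    rw [map_sub, sub_eq_zero] at h1
    rw [h1, map_mul, aeval_C, ← Algebra.smul_def, smul_smul, mul_assoc, inv_mul_cancel₀ hD', mul_one]
  · have h1 : aeval z ((E i).map (Int.castRingHom F) * (E j).map (Int.castRingHom F)) = 0 := by
      apply aeval_zero S K z hz
      intro k
      by_cases hik : i = k
      · have hjk : j ≠ k := fun h' => h (hik.trans h'.symm)
        have := hE j k
        rw [if_neg hjk, C_0, sub_zero] at this
        exact this.mul_left _
      · have := hE i k
        rw [if_neg hik, C_0, sub_zero] at this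
        exact this.mul_right _
    rw [h1, smul_zero]

theorem idem_comm (D : ℕ) (E : Fin 3 → ℤ[X]) (z : B) (i : Fin 3) :
    Commute z (idem F D E z i) := by
  unfold idem
  apply Commute.smul_right
  have := aeval_commute (F := F) z X ((E i).map (Int.castRingHom F))
  rwa [aeval_X] at this

theorem idem_offdiag (S K D : ℕ) (E : Fin 3 → ℤ[X])
    (hE : ∀ i k : Fin 3, Pp F S k ^ K ∣
      (E i).map (Int.castRingHom F) - C (if i = k then (D : F) else 0))
    (z W : B) (hz : (aeval z (∏ k, Pp F S k)) ^ K = 0)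
    (hW : z * W - W * z = aeval z (∏ k, Pp F S k))
    (hee : ∀ i j, i ≠ j → idem F D E z i * idem F D E z j = 0) (i j : Fin 3) (hij : i ≠ j) :
    idem F D E z i * W * idem F D E z j = 0 := by
  set e := idem F D E z
  have hP : ∀ i, aeval z (Pp F S i ^ K) * e i = 0 := by
    intro i
    change _ * ((D : F)⁻¹ • _) = 0
    rw [mul_smul_comm, ← map_mul]
    have : aeval z (Pp F S i ^ K * (E i).map (Int.castRingHom F)) = 0 := by
      apply aeval_zero S K z hz
      intro k
      by_cases hik : i = k
      · subst hik; exact dvd_mul_right _ _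
      · have := hE i k
        rw [if_neg hik, C_0, sub_zero] at this
        exact this.mul_left _
    rw [this, smul_zero]
  have hec : ∀ i (P : F[X]), Commute (aeval z P) (e i) := by
    intro i P
    exact (aeval_commute z P _).smul_right _
  set Y := e i * W * e j with hY
  have hYz : z * Y = Y * z := by
    have h1 : z * Y - Y * z = e i * (z * W - W * z) * e j := by
      have hzi := (idem_comm (F := F) D E z i).eq
      have hzj := (idem_comm (F := F) D E z j).eq
      calc z * Y - Y * z = (z * e i) * W * e j - e i * W * (e j * z) := by rw [hY]; noncomm_ring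
        _ = (e i * z) * W * e j - e i * W * (z * e j) := by rw [hzi, hzj]
        _ = _ := by noncomm_ring
    have h0 : e i * aeval z (∏ k, Pp F S k) * e j = 0 := by
      rw [← (hec i _).eq, mul_assoc, hee i j hij, mul_zero]
    rw [hW, h0] at h1
    exact sub_eq_zero.mp h1
  have hYp : ∀ P : F[X], aeval z P * Y = Y * aeval z P := by
    intro P
    induction P using Polynomial.induction_on' with
    | add p q hp hq => rw [map_add, add_mul, mul_add, hp, hq]
    | monomial n c =>
      rw [aeval_monomial, mul_assoc, ← mul_assoc Y, ← Algebra.commutes c Y, mul_assoc]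
      congr 1
      have : Commute z Y := hYz
      exact (this.pow_left n).eq
  have h1 : aeval z (Pp F S i ^ K) * Y = 0 := by
    rw [hY, ← mul_assoc, ← mul_assoc, hP]; simp
  have h2 : aeval z (Pp F S j ^ K) * Y = 0 := by
    rw [hYp, hY, mul_assoc, ← (hec j _).eq, hP, mul_zero]
  obtain ⟨u, v, huv⟩ := (coprime_Pp F S hij).pow (m := K) (n := K)
  have h3 : aeval z (u * Pp F S i ^ K + v * Pp F S j ^ K) * Y = 0 := by
    rw [map_add, map_mul, map_mul, add_mul, mul_assoc, mul_assoc, h1, h2]; simp
  rwa [huv, map_one, one_mul] at h3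

end algebra

variable (M : Mach) {F B : Type*} [Field F] [CharZero F] [Ring B] [Algebra F B]

theorem pz_eq (a : M.Gen → B) : pz M a = aeval (a M.gz) (∏ k, Pp F M.S k) := by
  rw [Fin.prod_univ_three]
  have h2 : algebraMap F B 2 = 2 := map_ofNat _ 2
  simp [Pp, mult, pz, h2]

/-- **Derivation theorem**: if `f = 0` and `s_d` vanishes at suitable arguments then the test
element vanishes as soon as the machine halts. -/
theorem derivation (d D : ℕ) (hD : D ≠ 0) (E : Fin 3 → ℤ[X])
    (hE : ∀ i k : Fin 3, Pp F M.S k ^ (d * d) ∣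
      (E i).map (Int.castRingHom F) - C (if i = k then (D : F) else 0))
    (a : M.Gen → B) (hf : relator M a (idem F D E (a M.gz)) = 0)
    (hstd : stdPoly d (fun i => WW M a (idem F D E (a M.gz)) ^ d * (a M.gz) ^ (i : ℕ)) = 0)
    (N : ℕ) (hN : M.Halts (M.q0, N)) : test M a (idem F D E (a M.gz)) N = 0 := by
  set z := a M.gz with hz
  set e := idem F D E z with he
  set W := WW M a e with hW
  have h1 : z * W - W * z = pz M a := by
    unfold relator at hf
    exact (sub_eq_zero.mp hf).symm
  have h2 : z * W - W * z = aeval z (∏ k, Pp F M.S k) := by rw [h1, pz_eq (F := F)]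
  have h3 : (z * W - W * z) ^ (d * d) = 0 := by
    apply nilpotency (F := F) z W d d (by omega) _ hstd
    rw [h2]
    have := aeval_commute (F := F) z X (∏ k, Pp F M.S k)
    rw [aeval_X] at this
    exact this
  rw [h2] at h3
  have h4 : ∀ i j, e i * e j = if i = j then e i else 0 := fun i j =>
    idem_mul M.S (d * d) D hD E hE z h3 i j
  have h5 : ∀ i, Commute z (e i) := fun i => idem_comm (F := F) D E z i
  have h6 : ∀ i j, i ≠ j → e i * W * e j = 0 :=
    fun i j hij => idem_offdiag M.S (d * d) D E hE z W h3 h2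
      (fun i j hij => by rw [h4, if_neg hij]) i j hij
  rw [test_eq M a e h4 h5]
  exact V_halts M a e h4 h5 h6 h1 _ hN

end Pool.Agent.H.MP_7596fa_lc.T
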