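import Pool.Agent.H.MP_7596fa_lc.T.Gadget

/-!
The relator evaluated at explicit `3 × 3` matrices over a commutative ring; naturality.
-/

namespace Pool.Agent.H.MP_7596fa_lc.T

open Matrix

theorem diag_mul_single {C : Type*} [CommRing C] (d : Fin 3 → C) (i j : Fin 3) (c : C) :
    diagonal d * single i j c = single i j (d i * c) := by
  ext a b
  rw [Matrix.diagonal_mul]
  simp only [Matrix.single_apply]
  split_ifs with h
  · rw [h.1]
  · rw [mul_zero]

theorem single_mul_diag {C : Type*} [CommRing C] (d : Fin 3 → C) (i j : Fin 3) (c : C) :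
    single i j c * diagonal d = single i j (c * d j) := by
  ext a b
  rw [Matrix.mul_diagonal]
  simp only [Matrix.single_apply]
  split_ifs with h
  · rw [h.2]
  · rw [zero_mul]

variable (M : Mach) {C : Type*} [CommRing C] (x y τ τ' s : C) (lt : M.Gen → C)

/-- diagonal entries of `z` -/
def ζ : Fin 3 → C := ![0, 1 + τ, 2 + τ']

/-- the matrices -/
def mat : M.Gen → Matrix (Fin 3) (Fin 3) C
  | Sum.inl i => (![diagonal (ζ τ τ'), diagonal ![0, x, y], single 0 1 1, single 2 0 s,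
      single 1 2 (lt M.gu), single 1 2 (lt M.gu'), single 1 2 (lt M.gw), single 1 2 (lt M.gw')] :
      Fin 8 → Matrix (Fin 3) (Fin 3) C) i
  | Sum.inr (Sum.inl q) => single 1 2 (lt (M.gγ q))
  | Sum.inr (Sum.inr (Sum.inl t)) => single 2 2 (lt (M.gm t))
  | Sum.inr (Sum.inr (Sum.inr t)) => single 1 1 (lt (M.gv t))

theorem mat_gz : mat M x y τ τ' s lt M.gz = diagonal (ζ τ τ') := rfl
theorem mat_gg : mat M x y τ τ' s lt M.gg = diagonal ![0, x, y] := rfl
theorem mat_gL : mat M x y τ τ' s lt M.gL = single 0 1 1 := rfl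
theorem mat_gR : mat M x y τ τ' s lt M.gR = single 2 0 s := rfl
theorem mat_gu : mat M x y τ τ' s lt M.gu = single 1 2 (lt M.gu) := rfl
theorem mat_gu' : mat M x y τ τ' s lt M.gu' = single 1 2 (lt M.gu') := rfl
theorem mat_gw : mat M x y τ τ' s lt M.gw = single 1 2 (lt M.gw) := rfl
theorem mat_gw' : mat M x y τ τ' s lt M.gw' = single 1 2 (lt M.gw') := rfl
theorem mat_gγ (q) : mat M x y τ τ' s lt (M.gγ q) = single 1 2 (lt (M.gγ q)) := rfl
theorem mat_gm (t) : mat M x y τ τ' s lt (M.gm t) = single 2 2 (lt (M.gm t)) := rfl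
theorem mat_gv (t) : mat M x y τ τ' s lt (M.gv t) = single 1 1 (lt (M.gv t)) := rfl

/-- matrix units -/
def E3 : Fin 3 → Matrix (Fin 3) (Fin 3) C := fun i => single i i 1

/-- value of the relations -/
def rval : M.Rel → C
  | Sum.inl q => x * lt (M.gγ q) - lt (M.gγ q) * y ^ M.A
  | Sum.inr (Sum.inl t) =>
      x * (lt M.gu * lt (M.gm t)) - lt M.gu * lt (M.gm t) * y ^ M.b t.1 t.2
  | Sum.inr (Sum.inr (Sum.inl t)) =>
      lt (M.gγ t.1) * y ^ (t.2 : ℕ) - lt (M.gv t) * lt M.gw
  | Sum.inr (Sum.inr (Sum.inr (Sum.inl t))) =>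
      lt (M.gv t) * lt M.gw' - lt M.gu * lt (M.gm t) * y ^ M.c t.1 t.2
  | Sum.inr (Sum.inr (Sum.inr (Sum.inr (Sum.inl t)))) =>
      lt M.gu' * lt (M.gm t) - lt (M.gγ (M.tgt t.1 t.2))
  | Sum.inr (Sum.inr (Sum.inr (Sum.inr (Sum.inr _)))) => lt (M.gγ M.qh)

theorem xx_mat : xx M (mat M x y τ τ' s lt) E3 = single 1 1 x := by
  simp [xx, mat_gg, E3, single_mul_diag]

theorem yy_mat : yy M (mat M x y τ τ' s lt) E3 = single 2 2 y := by
  simp [yy, mat_gg, E3, single_mul_diag]

theorem yy_pow_mat (n : ℕ) (c : C) (i : Fin 3) :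
    single i 2 c * yy M (mat M x y τ τ' s lt) E3 ^ n = single i 2 (c * y ^ n) := by
  induction n with
  | zero => simp
  | succ n ih => rw [pow_succ, ← mul_assoc, ih, yy_mat, single_mul_single_same, pow_succ, mul_assoc]

theorem γγ_mat (q) : γγ M (mat M x y τ τ' s lt) E3 q = single 1 2 (lt (M.gγ q)) := by
  simp [γγ, mat_gγ, E3]
theorem uu_mat : uu M (mat M x y τ τ' s lt) E3 = single 1 2 (lt M.gu) := by
  simp [uu, mat_gu, E3]
theorem uu'_mat : uu' M (mat M x y τ τ' s lt) E3 = single 1 2 (lt M.gu') := by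
  simp [uu', mat_gu', E3]
theorem ww_mat : ww M (mat M x y τ τ' s lt) E3 = single 1 2 (lt M.gw) := by
  simp [ww, mat_gw, E3]
theorem ww'_mat : ww' M (mat M x y τ τ' s lt) E3 = single 1 2 (lt M.gw') := by
  simp [ww', mat_gw', E3]
theorem mm_mat (t) : mm M (mat M x y τ τ' s lt) E3 t = single 2 2 (lt (M.gm t)) := by
  simp [mm, mat_gm, E3]
theorem vv_mat (t) : vv M (mat M x y τ τ' s lt) E3 t = single 1 1 (lt (M.gv t)) := by
  simp [vv, mat_gv, E3]

theorem rel_mat (r : M.Rel) : rel M (mat M x y τ τ' s lt) E3 r = single 1 2 (rval M x y lt r) := by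
  rcases r with q | t | t | t | t | _ <;>
  simp only [rel, rval, xx_mat, γγ_mat, uu_mat, uu'_mat, ww_mat, ww'_mat, mm_mat, vv_mat,
    single_mul_single_same, yy_pow_mat] <;>
  simp only [sub_eq_add_neg, single_add, single_neg]

theorem gz_sub_pow (c : C) (n : ℕ) :
    (diagonal (ζ τ τ') - diagonal (fun _ => c)) ^ n = diagonal (fun i => (ζ τ τ' i - c) ^ n) := by
  rw [Matrix.diagonal_sub, Matrix.diagonal_pow]
  rfl

theorem one_eq_diag : (1 : Matrix (Fin 3) (Fin 3) C) = diagonal (fun _ => 1) := by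
  rw [← Matrix.diagonal_one]
theorem two_eq_diag : (2 : Matrix (Fin 3) (Fin 3) C) = diagonal (fun _ => 2) := by
  exact (Matrix.diagonal_ofNat' 2).symm

/-- the packed value -/
noncomputable def rhoval : C :=
  ∑ r : Fin M.S, τ ^ (r : ℕ) * rval M x y lt (M.num.symm r) * τ' ^ (M.S - 1 - r)

theorem rho_mat : rho M (mat M x y τ τ' s lt) E3 = single 1 2 (rhoval M x y τ τ' lt) := by
  unfold rho rhoval
  have h : ∀ r : Fin M.S, (mat M x y τ τ' s lt M.gz - 1) ^ (r : ℕ) *
      rel M (mat M x y τ τ' s lt) E3 (M.num.symm r) *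
      (mat M x y τ τ' s lt M.gz - 2) ^ (M.S - 1 - r) =
      single 1 2 (τ ^ (r : ℕ) * rval M x y lt (M.num.symm r) * τ' ^ (M.S - 1 - r)) := by
    intro r
    rw [rel_mat, mat_gz, one_eq_diag, two_eq_diag, gz_sub_pow, gz_sub_pow, diag_mul_single,
      single_mul_diag]
    simp [ζ]
  rw [Finset.sum_congr rfl fun r _ => h r]
  ext i j
  simp only [Matrix.sum_apply, Matrix.single_apply]
  split_ifs <;> simp

theorem pz_mat (hτ : τ ^ M.S = 0) (hτ' : τ' ^ M.S = 0) : pz M (mat M x y τ τ' s lt) = 0 := by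
  unfold pz
  rw [mat_gz, one_eq_diag, two_eq_diag, gz_sub_pow, gz_sub_pow,
    Matrix.diagonal_mul_diagonal, Matrix.diagonal_mul_diagonal, ← Matrix.diagonal_zero]
  congr 1
  funext i
  fin_cases i <;> simp [ζ, hτ, hτ']

theorem e3_mul_mul (X : Matrix (Fin 3) (Fin 3) C) (i j : Fin 3) :
    E3 i * X * E3 j = single i j (X i j) := by
  simp [E3]

theorem WW_mat : WW M (mat M x y τ τ' s lt) E3 =
    Matrix.of fun i j => blk M (mat M x y τ τ' s lt) E3 i j i j := by
  unfold WW
  simp only [e3_mul_mul]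
  exact (Matrix.matrix_eq_sum_single _).symm

theorem relator_mat (hτ : τ ^ M.S = 0) (hτ' : τ' ^ M.S = 0) :
    relator M (mat M x y τ τ' s lt) E3 =
      single 1 2 ((ζ τ τ' 2 - ζ τ τ' 1) * rhoval M x y τ τ' lt) +
      single 0 2 ((2 + τ') * (τ ^ (M.S - 1) * (lt M.gu - lt M.gu'))) -
      single 1 0 ((1 + τ) * ((lt M.gw - lt M.gw') * τ' ^ (M.S - 1) * s)) := by
  unfold relator
  rw [pz_mat _ _ _ _ _ _ _ hτ hτ', WW_mat, mat_gz, zero_sub]
  have h01 : blk M (mat M x y τ τ' s lt) E3 0 1 0 1 = 0 := by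
    change (mat M x y τ τ' s lt M.gL * (mat M x y τ τ' s lt M.gz - 1) ^ M.S :
      Matrix (Fin 3) (Fin 3) C) 0 1 = 0
    rw [mat_gz, one_eq_diag, gz_sub_pow, mat_gL, single_mul_diag]
    simp [ζ, hτ]
  have h20 : blk M (mat M x y τ τ' s lt) E3 2 0 2 0 = 0 := by
    change ((mat M x y τ τ' s lt M.gz - 2) ^ M.S * mat M x y τ τ' s lt M.gR :
      Matrix (Fin 3) (Fin 3) C) 2 0 = 0
    rw [mat_gz, two_eq_diag, gz_sub_pow, mat_gR, diag_mul_single]
    simp [ζ, hτ']
  have h12 : blk M (mat M x y τ τ' s lt) E3 1 2 1 2 = rhoval M x y τ τ' lt := by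
    change rho M (mat M x y τ τ' s lt) E3 1 2 = _
    rw [rho_mat]; simp
  have h02 : blk M (mat M x y τ τ' s lt) E3 0 2 0 2 = τ ^ (M.S - 1) * (lt M.gu - lt M.gu') := by
    change (mat M x y τ τ' s lt M.gL * (E3 1 : Matrix (Fin 3) (Fin 3) C) *
      (mat M x y τ τ' s lt M.gz - 1) ^ (M.S - 1) *
      (uu M (mat M x y τ τ' s lt) E3 - uu' M (mat M x y τ τ' s lt) E3) :
        Matrix (Fin 3) (Fin 3) C) 0 2 = _
    rw [mat_gz, one_eq_diag, gz_sub_pow, mat_gL, E3, single_mul_single_same, single_mul_diag,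
      uu_mat, uu'_mat, mul_sub, single_mul_single_same, single_mul_single_same]
    simp [ζ]; ring
  have h10 : blk M (mat M x y τ τ' s lt) E3 1 0 1 0 =
      (lt M.gw - lt M.gw') * τ' ^ (M.S - 1) * s := by
    change ((ww M (mat M x y τ τ' s lt) E3 - ww' M (mat M x y τ τ' s lt) E3) *
      (mat M x y τ τ' s lt M.gz - 2) ^ (M.S - 1) * (E3 2 : Matrix (Fin 3) (Fin 3) C) *
      mat M x y τ τ' s lt M.gR : Matrix (Fin 3) (Fin 3) C) 1 0 = _
    rw [mat_gz, two_eq_diag, gz_sub_pow, mat_gR, E3, ww_mat, ww'_mat, sub_mul, sub_mul, sub_mul,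
      single_mul_diag, single_mul_diag, single_mul_single_same, single_mul_single_same,
      single_mul_single_same, single_mul_single_same]
    simp [ζ]; ring
  ext i j
  fin_cases i <;> fin_cases j <;>
    simp [Matrix.sub_apply, h01, h20, h12, h02, h10, ζ] <;>
    first
      | rfl
      | (simp only [blk, Matrix.zero_apply]; ring)
      | ring

theorem test_mat (N : ℕ) : test M (mat M x y τ τ' s lt) E3 N =
    single 0 0 (τ ^ (M.S - 1) * lt (M.gγ M.q0) * τ' ^ (M.S - 1) * y ^ N * s) := by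
  unfold test
  have h1 : (E3 0 * mat M x y τ τ' s lt M.gL * E3 1 * (mat M x y τ τ' s lt M.gz - 1) ^ (M.S - 1) *
      mat M x y τ τ' s lt (M.gγ M.q0) * E3 2 * (mat M x y τ τ' s lt M.gz - 2) ^ (M.S - 1) :
        Matrix (Fin 3) (Fin 3) C) =
      single 0 2 (τ ^ (M.S - 1) * lt (M.gγ M.q0) * τ' ^ (M.S - 1)) := by
    rw [mat_gz, one_eq_diag, two_eq_diag, gz_sub_pow, gz_sub_pow, mat_gL, mat_gγ]
    simp only [E3, single_mul_single_same, single_mul_diag]
    simp [ζ]
  have h2 : ∀ (c : C), single 0 2 c * (mat M x y τ τ' s lt M.gg * E3 2) ^ N =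
      single 0 2 (c * y ^ N) := by
    intro c
    induction N with
    | zero => simp
    | succ n ih =>
      rw [pow_succ, ← mul_assoc, ih, mat_gg, E3, diag_mul_single, single_mul_single_same]
      simp [pow_succ, mul_assoc]
  rw [h1, h2, mat_gR]
  simp [E3]

open Polynomial in
theorem aeval_diagonal {F C : Type*} [Field F] [CommRing C] [Algebra F C] (d : Fin 3 → C)
    (P : F[X]) : aeval (diagonal d) P = diagonal fun i => aeval (d i) P := by
  have h : (diagonal d : Matrix (Fin 3) (Fin 3) C) = Matrix.diagonalAlgHom F d := rfl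
  rw [h, Polynomial.aeval_algHom_apply]
  change diagonal (aeval d P) = _
  congr 1
  funext i
  have := Polynomial.aeval_algHom_apply (Pi.evalAlgHom F (fun _ : Fin 3 => C) i) d P
  exact this.symm

open Polynomial in
theorem idem_mat {F C : Type*} [Field F] [CharZero F] [CommRing C] [Algebra F C] (S K D : ℕ)
    (hK : 0 < K) (hD : D ≠ 0) (E : Fin 3 → ℤ[X])
    (hE : ∀ i k : Fin 3, Pp F S k ^ K ∣
      (E i).map (Int.castRingHom F) - Polynomial.C (if i = k then (D : F) else 0))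
    (τ τ' : C) (hτ : τ ^ S = 0) (hτ' : τ' ^ S = 0) :
    idem F D E (diagonal (ζ τ τ')) = E3 := by
  have hD' : (D : F) ≠ 0 := Nat.cast_ne_zero.mpr hD
  funext i
  unfold idem E3
  rw [aeval_diagonal, ← Matrix.diagonal_smul]
  rw [← Matrix.diagonal_single]
  congr 1
  funext k
  have h0 : aeval (ζ τ τ' k) (Pp F S k) = 0 := by
    have h2 : algebraMap F C 2 = 2 := map_ofNat _ 2
    fin_cases k <;> simp [Pp, mult, ζ, hτ, hτ', h2]
  have h1 : aeval (ζ τ τ' k) ((E i).map (Int.castRingHom F)) =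
      algebraMap F C (if i = k then (D : F) else 0) := by
    obtain ⟨t, ht⟩ := hE i k
    have h2 : (E i).map (Int.castRingHom F) =
        Pp F S k ^ K * t + Polynomial.C (if i = k then (D : F) else 0) := by
      rw [← ht]; ring
    rw [h2, map_add, map_mul, map_pow, h0, zero_pow hK.ne', zero_mul, zero_add, aeval_C]
  rw [Pi.smul_apply, h1]
  by_cases hik : i = k
  · subst hik
    rw [if_pos rfl, Pi.single_eq_same, Algebra.smul_def, ← map_mul, inv_mul_cancel₀ hD', map_one]
  · rw [if_neg hik, map_zero, smul_zero, Pi.single_eq_of_ne (Ne.symm hik)]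

section naturality

variable {B B' : Type*} [Ring B] [Ring B'] (φ : B →+* B') (a : M.Gen → B) (e : Fin 3 → B)

theorem map_rel (r : M.Rel) :
    φ (rel M a e r) = rel M (fun g => φ (a g)) (fun i => φ (e i)) r := by
  rcases r with q | t | t | t | t | _ <;>
    simp only [rel, xx, yy, γγ, uu, uu', ww, ww', mm, vv, map_sub, map_mul, map_pow]

theorem map_rho : φ (rho M a e) = rho M (fun g => φ (a g)) (fun i => φ (e i)) := by
  unfold rho
  rw [map_sum]
  refine Finset.sum_congr rfl fun s _ => ?_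
  rw [map_mul, map_mul, map_pow, map_pow, map_rel, map_sub, map_sub, map_one, map_ofNat]

theorem map_blk : ∀ i j : Fin 3,
    φ (blk M a e i j) = blk M (fun g => φ (a g)) (fun i => φ (e i)) i j := by
  have h01 : φ (blk M a e 0 1) = blk M (fun g => φ (a g)) (fun i => φ (e i)) 0 1 := by
    change φ (a M.gL * (a M.gz - 1) ^ M.S) = φ (a M.gL) * (φ (a M.gz) - 1) ^ M.S
    simp only [map_sub, map_mul, map_pow, map_one]
  have h20 : φ (blk M a e 2 0) = blk M (fun g => φ (a g)) (fun i => φ (e i)) 2 0 := by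
    change φ ((a M.gz - 2) ^ M.S * a M.gR) = (φ (a M.gz) - 2) ^ M.S * φ (a M.gR)
    simp only [map_sub, map_mul, map_pow, map_ofNat]
  have h02 : φ (blk M a e 0 2) = blk M (fun g => φ (a g)) (fun i => φ (e i)) 0 2 := by
    change φ (a M.gL * e 1 * (a M.gz - 1) ^ (M.S - 1) * (e 1 * a M.gu * e 2 - e 1 * a M.gu' * e 2)) =
      φ (a M.gL) * φ (e 1) * (φ (a M.gz) - 1) ^ (M.S - 1) *
        (φ (e 1) * φ (a M.gu) * φ (e 2) - φ (e 1) * φ (a M.gu') * φ (e 2))
    simp only [map_sub, map_mul, map_pow, map_one]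
  have h10 : φ (blk M a e 1 0) = blk M (fun g => φ (a g)) (fun i => φ (e i)) 1 0 := by
    change φ ((e 1 * a M.gw * e 2 - e 1 * a M.gw' * e 2) * (a M.gz - 2) ^ (M.S - 1) * e 2 * a M.gR) =
      (φ (e 1) * φ (a M.gw) * φ (e 2) - φ (e 1) * φ (a M.gw') * φ (e 2)) *
        (φ (a M.gz) - 2) ^ (M.S - 1) * φ (e 2) * φ (a M.gR)
    simp only [map_sub, map_mul, map_pow, map_ofNat]
  intro i j
  fin_cases i <;> fin_cases j <;>
    first
      | exact map_rho M φ a e
      | rfl
      | exact map_zero φ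
      | exact h01
      | exact h20
      | exact h02
      | exact h10

theorem map_WW : φ (WW M a e) = WW M (fun g => φ (a g)) (fun i => φ (e i)) := by
  unfold WW
  rw [map_sum]
  refine Finset.sum_congr rfl fun i _ => ?_
  rw [map_sum]
  refine Finset.sum_congr rfl fun j _ => ?_
  rw [map_mul, map_mul, map_blk]

theorem map_relator : φ (relator M a e) = relator M (fun g => φ (a g)) (fun i => φ (e i)) := by
  unfold relator
  rw [map_sub, map_sub, map_mul, map_mul, map_WW]
  congr 1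
  simp only [pz, map_sub, map_mul, map_pow, map_one, map_ofNat]

theorem map_test (N : ℕ) :
    φ (test M a e N) = test M (fun g => φ (a g)) (fun i => φ (e i)) N := by
  simp only [test, map_sub, map_mul, map_pow, map_one, map_ofNat]

end naturality

open Polynomial in
theorem map_idem {F B B' : Type*} [Field F] [Ring B] [Ring B'] [Algebra F B] [Algebra F B']
    (φ : B →ₐ[F] B') (D : ℕ) (E : Fin 3 → ℤ[X]) (z : B) (i : Fin 3) :
    φ (idem F D E z i) = idem F D E (φ z) i := by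
  unfold idem
  rw [map_smul, Polynomial.aeval_algHom_apply]

end Pool.Agent.H.MP_7596fa_lc.T
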