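import Pool.Agent.H.MP_7596fa_lc.T.Mat

/-!
The abstract test functional, three positions.
-/

namespace Pool.Agent.H.MP_7596fa_lc.T

open Matrix

variable (M : Mach)

/-- data for the test functional -/
structure TestData (F C : Type*) [Field F] [CommRing C] [Algebra F C] where
  x : C
  y : C
  τ : C
  τ' : C
  s : C
  lt : M.Gen → C
  θ : C →ₗ[F] F
  PX : Submodule F C
  PY : Submodule F C
  X_one : (1 : C) ∈ PX
  X_x : ∀ p ∈ PX, p * x ∈ PX
  X_τ : ∀ p ∈ PX, p * τ ∈ PX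
  X_l : ∀ p ∈ PX, ∀ t, p * lt (M.gv t) ∈ PX
  Y_one : (1 : C) ∈ PY
  Y_y : ∀ p ∈ PY, p * y ∈ PY
  Y_τ' : ∀ p ∈ PY, p * τ' ∈ PY
  Y_l : ∀ p ∈ PY, ∀ t, p * lt (M.gm t) ∈ PY
  hτ : τ ^ M.S = 0
  hτ' : τ' ^ M.S = 0
  hs : s * s = 0
  hrel : ∀ p ∈ PX, ∀ q ∈ PY, ∀ r : M.Rel, θ (p * q * s * rval M x y lt r) = 0
  hleft : ∀ q ∈ PY, θ (τ ^ (M.S - 1) * q * s * (lt M.gu - lt M.gu')) = 0
  hright : ∀ p ∈ PX, θ (p * τ' ^ (M.S - 1) * s * (lt M.gw - lt M.gw')) = 0

namespace TestData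

variable {M} {F C : Type*} [Field F] [CommRing C] [Algebra F C] (T : TestData M F C)

/-- multiples of `s` -/
def sC : Submodule F C := LinearMap.range (LinearMap.mulLeft F T.s)

/-- multiples of `s` by elements of `PY` -/
def SY : Submodule F C := T.PY.map (LinearMap.mulLeft F T.s)

def K1 (_T : TestData M F C) : Submodule F C := Submodule.span F {(1 : C)}

theorem mem_sC {c : C} : c ∈ T.sC ↔ ∃ d, T.s * d = c := by
  simp [sC]

theorem mem_SY {c : C} : c ∈ T.SY ↔ ∃ d ∈ T.PY, T.s * d = c := by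
  simp [SY]

theorem sC_mul {c : C} (h : c ∈ T.sC) (d : C) : c * d ∈ T.sC := by
  rw [mem_sC] at h ⊢
  obtain ⟨e, rfl⟩ := h
  exact ⟨e * d, by ring⟩

theorem mul_sC {c : C} (h : c ∈ T.sC) (d : C) : d * c ∈ T.sC := by
  rw [mul_comm]; exact T.sC_mul h d

theorem s_mul_mem (d : C) : T.s * d ∈ T.sC := T.mem_sC.mpr ⟨d, rfl⟩

theorem mul_s_mem (d : C) : d * T.s ∈ T.sC := T.mem_sC.mpr ⟨d, mul_comm _ _⟩

theorem sup_mul {P Q : Submodule F C} (d : C) (h : ∀ c ∈ P, c * d ∈ Q) {c : C}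
    (hc : c ∈ P ⊔ T.sC) : c * d ∈ Q ⊔ T.sC := by
  obtain ⟨a, ha, b, hb, rfl⟩ := Submodule.mem_sup.mp hc
  rw [add_mul]
  exact Submodule.add_mem_sup (h a ha) (T.sC_mul hb d)

theorem SY_mul {d c : C} (h : ∀ q ∈ T.PY, q * d ∈ T.PY) (hc : c ∈ T.SY) : d * c ∈ T.SY := by
  rw [mem_SY] at hc ⊢
  obtain ⟨q, hq, rfl⟩ := hc
  exact ⟨q * d, h q hq, by ring⟩

theorem SY_le : T.SY ≤ T.sC := by
  intro c hc
  rw [mem_SY] at hc
  obtain ⟨q, hq, rfl⟩ := hc
  exact T.s_mul_mem _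

theorem K1_le : T.K1 ≤ T.PX := by
  refine Submodule.span_le.mpr ?_
  rintro c rfl
  exact T.X_one

theorem s_mul_K1 {c : C} (hc : c ∈ T.K1 ⊔ T.sC) : T.s * c ∈ T.SY := by
  obtain ⟨a, ha, b, hb, rfl⟩ := Submodule.mem_sup.mp hc
  obtain ⟨d, rfl⟩ := T.mem_sC.mp hb
  obtain ⟨k, rfl⟩ := Submodule.mem_span_singleton.mp ha
  rw [mul_add, ← mul_assoc, T.hs, zero_mul, add_zero, mul_smul_comm, mul_one]
  exact T.SY.smul_mem k (T.mem_SY.mpr ⟨1, T.Y_one, mul_one _⟩)

/-- invariant of rows -/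
def rowOK (r : Fin 3 → C) : Prop := r 0 ∈ T.K1 ⊔ T.sC ∧ r 1 ∈ T.PX ⊔ T.sC

/-- invariant of columns -/
def colOK (c : Fin 3 → C) : Prop := c 0 ∈ T.K1 ⊔ T.sC ∧ c 1 ∈ T.sC ∧ c 2 ∈ T.SY

/-- the matrices -/
def mt : M.Gen → Matrix (Fin 3) (Fin 3) C := mat M T.x T.y T.τ T.τ' T.s T.lt

theorem vecMul_single (r : Fin 3 → C) (i j : Fin 3) (c : C) :
    r ᵥ* single i j c = fun k => if k = j then r i * c else 0 := by
  funext k
  simp only [Matrix.vecMul, dotProduct, Matrix.single_apply]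
  rw [Finset.sum_eq_single i]
  · by_cases h : k = j
    · simp [h]
    · simp [h, Ne.symm h]
  · intro b _ hb; simp [Ne.symm hb]
  · intro h; exact absurd (Finset.mem_univ _) h

theorem single_mulVec' (r : Fin 3 → C) (i j : Fin 3) (c : C) :
    single i j c *ᵥ r = fun k => if k = i then c * r j else 0 := by
  funext k
  simp only [Matrix.mulVec, dotProduct, Matrix.single_apply]
  rw [Finset.sum_eq_single j]
  · by_cases h : k = i
    · simp [h]
    · simp [h, Ne.symm h]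
  · intro b _ hb; simp [Ne.symm hb]
  · intro h; exact absurd (Finset.mem_univ _) h

theorem rowOK_single {r : Fin 3 → C} {i j : Fin 3} {c : C}
    (h0 : j = 0 → r i * c ∈ T.K1 ⊔ T.sC) (h1 : j = 1 → r i * c ∈ T.PX ⊔ T.sC) :
    T.rowOK (r ᵥ* single i j c) := by
  rw [vecMul_single]
  refine ⟨?_, ?_⟩
  · change (if (0 : Fin 3) = j then _ else _) ∈ _
    split_ifs with h
    · exact h0 h.symm
    · exact Submodule.zero_mem _
  · change (if (1 : Fin 3) = j then _ else _) ∈ _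
    split_ifs with h
    · exact h1 h.symm
    · exact Submodule.zero_mem _

theorem colOK_single {r : Fin 3 → C} {i j : Fin 3} {c : C}
    (h0 : i = 0 → c * r j ∈ T.K1 ⊔ T.sC) (h1 : i = 1 → c * r j ∈ T.sC)
    (h2 : i = 2 → c * r j ∈ T.SY) :
    T.colOK (single i j c *ᵥ r) := by
  rw [single_mulVec']
  refine ⟨?_, ?_, ?_⟩
  · change (if (0 : Fin 3) = i then _ else _) ∈ _
    split_ifs with h
    · exact h0 h.symm
    · exact Submodule.zero_mem _
  · change (if (1 : Fin 3) = i then _ else _) ∈ _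
    split_ifs with h
    · exact h1 h.symm
    · exact Submodule.zero_mem _
  · change (if (2 : Fin 3) = i then _ else _) ∈ _
    split_ifs with h
    · exact h2 h.symm
    · exact Submodule.zero_mem _

theorem rowOK_gen {r : Fin 3 → C} (hr : T.rowOK r) (g : M.Gen) : T.rowOK (r ᵥ* T.mt g) := by
  obtain ⟨hr0, hr1⟩ := hr
  have key2 : ∀ c : C, ∀ i : Fin 3, T.rowOK (r ᵥ* single i 2 c) := by
    intro c i
    exact T.rowOK_single (fun h => absurd h (by decide)) (fun h => absurd h (by decide))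
  rcases g with i | q | t | t
  · fin_cases i
    · -- z
      change T.rowOK (r ᵥ* diagonal (ζ T.τ T.τ'))
      refine ⟨?_, ?_⟩
      · rw [Matrix.vecMul_diagonal]; simp [ζ]
      · rw [Matrix.vecMul_diagonal]
        simp only [ζ]
        change r 1 * (1 + T.τ) ∈ _
        rw [mul_add, mul_one]
        exact Submodule.add_mem _ hr1 (T.sup_mul T.τ T.X_τ hr1)
    · -- g
      change T.rowOK (r ᵥ* diagonal ![0, T.x, T.y])
      refine ⟨?_, ?_⟩
      · rw [Matrix.vecMul_diagonal]; simp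
      · rw [Matrix.vecMul_diagonal]
        change r 1 * T.x ∈ _
        exact (T.sup_mul T.x T.X_x hr1)
    · -- L
      change T.rowOK (r ᵥ* single 0 1 1)
      refine T.rowOK_single (fun h => absurd h (by decide)) (fun _ => ?_)
      rw [mul_one]
      exact sup_le_sup_right T.K1_le _ hr0
    · -- R
      change T.rowOK (r ᵥ* single 2 0 T.s)
      refine T.rowOK_single (fun _ => ?_) (fun h => absurd h (by decide))
      exact Submodule.mem_sup_right (T.mul_s_mem _)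
    · exact key2 _ _
    · exact key2 _ _
    · exact key2 _ _
    · exact key2 _ _
  · exact key2 _ _
  · exact key2 _ _
  · change T.rowOK (r ᵥ* single 1 1 (T.lt (M.gv t)))
    refine T.rowOK_single (fun h => absurd h (by decide)) (fun _ => ?_)
    exact T.sup_mul _ (fun c hc => T.X_l c hc t) hr1

theorem colOK_gen {r : Fin 3 → C} (hr : T.colOK r) (g : M.Gen) : T.colOK (T.mt g *ᵥ r) := by
  obtain ⟨hr0, hr1, hr2⟩ := hr
  have key1 : ∀ c : C, ∀ j : Fin 3, r j ∈ T.sC → T.colOK (single 1 j c *ᵥ r) := by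
    intro c j hj
    exact T.colOK_single (fun h => absurd h (by decide)) (fun _ => T.mul_sC hj _)
      (fun h => absurd h (by decide))
  rcases g with i | q | t | t
  · fin_cases i
    · -- z
      change T.colOK (diagonal (ζ T.τ T.τ') *ᵥ r)
      refine ⟨?_, ?_, ?_⟩
      · rw [Matrix.mulVec_diagonal]; simp [ζ]
      · rw [Matrix.mulVec_diagonal]
        exact T.mul_sC hr1 _
      · rw [Matrix.mulVec_diagonal]
        change (2 + T.τ') * r 2 ∈ _
        rw [add_mul, two_mul]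
        exact Submodule.add_mem _ (Submodule.add_mem _ hr2 hr2) (T.SY_mul T.Y_τ' hr2)
    · -- g
      change T.colOK (diagonal ![0, T.x, T.y] *ᵥ r)
      refine ⟨?_, ?_, ?_⟩
      · rw [Matrix.mulVec_diagonal]; simp
      · rw [Matrix.mulVec_diagonal]
        exact T.mul_sC hr1 _
      · rw [Matrix.mulVec_diagonal]
        exact T.SY_mul T.Y_y hr2
    · -- L
      change T.colOK (single 0 1 1 *ᵥ r)
      refine T.colOK_single (fun _ => ?_) (fun h => absurd h (by decide))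
        (fun h => absurd h (by decide))
      rw [one_mul]
      exact Submodule.mem_sup_right hr1
    · -- R
      change T.colOK (single 2 0 T.s *ᵥ r)
      refine T.colOK_single (fun h => absurd h (by decide)) (fun h => absurd h (by decide))
        (fun _ => T.s_mul_K1 hr0)
    · exact key1 _ _ (T.SY_le hr2)
    · exact key1 _ _ (T.SY_le hr2)
    · exact key1 _ _ (T.SY_le hr2)
    · exact key1 _ _ (T.SY_le hr2)
  · exact key1 _ _ (T.SY_le hr2)
  · change T.colOK (single 2 2 (T.lt (M.gm t)) *ᵥ r)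
    refine T.colOK_single (fun h => absurd h (by decide)) (fun h => absurd h (by decide))
      (fun _ => T.SY_mul (fun c hc => T.Y_l c hc t) hr2)
  · exact key1 _ _ hr1

theorem rowOK_add {r r' : Fin 3 → C} (hr : T.rowOK r) (hr' : T.rowOK r') : T.rowOK (r + r') :=
  ⟨Submodule.add_mem _ hr.1 hr'.1, Submodule.add_mem _ hr.2 hr'.2⟩

theorem rowOK_smul {r : Fin 3 → C} (a : F) (hr : T.rowOK r) : T.rowOK (a • r) :=
  ⟨Submodule.smul_mem _ a hr.1, Submodule.smul_mem _ a hr.2⟩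

theorem colOK_add {r r' : Fin 3 → C} (hr : T.colOK r) (hr' : T.colOK r') : T.colOK (r + r') :=
  ⟨Submodule.add_mem _ hr.1 hr'.1, Submodule.add_mem _ hr.2.1 hr'.2.1,
    Submodule.add_mem _ hr.2.2 hr'.2.2⟩

theorem colOK_smul {r : Fin 3 → C} (a : F) (hr : T.colOK r) : T.colOK (a • r) :=
  ⟨Submodule.smul_mem _ a hr.1, Submodule.smul_mem _ a hr.2.1, Submodule.smul_mem _ a hr.2.2⟩

/-- the representation -/
noncomputable def φ : FreeAlgebra F M.Gen →ₐ[F] Matrix (Fin 3) (Fin 3) C := FreeAlgebra.lift F T.mt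

theorem rowOK_φ (a : FreeAlgebra F M.Gen) : ∀ r, T.rowOK r → T.rowOK (r ᵥ* T.φ a) := by
  induction a using FreeAlgebra.induction with
  | grade0 k =>
    intro r hr
    rw [AlgHom.commutes, Algebra.algebraMap_eq_smul_one, Matrix.vecMul_smul, Matrix.vecMul_one]
    exact T.rowOK_smul k hr
  | grade1 g =>
    intro r hr
    rw [φ, FreeAlgebra.lift_ι_apply]
    exact T.rowOK_gen hr g
  | mul a b ha hb =>
    intro r hr
    rw [map_mul, ← Matrix.vecMul_vecMul]
    exact hb _ (ha _ hr)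
  | add a b ha hb =>
    intro r hr
    rw [map_add, Matrix.vecMul_add]
    exact T.rowOK_add (ha _ hr) (hb _ hr)

theorem colOK_φ (a : FreeAlgebra F M.Gen) : ∀ r, T.colOK r → T.colOK (T.φ a *ᵥ r) := by
  induction a using FreeAlgebra.induction with
  | grade0 k =>
    intro r hr
    rw [AlgHom.commutes, Algebra.algebraMap_eq_smul_one, Matrix.smul_mulVec, Matrix.one_mulVec]
    exact T.colOK_smul k hr
  | grade1 g =>
    intro r hr
    rw [φ, FreeAlgebra.lift_ι_apply]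
    exact T.colOK_gen hr g
  | mul a b ha hb =>
    intro r hr
    rw [map_mul, ← Matrix.mulVec_mulVec]
    exact ha _ (hb _ hr)
  | add a b ha hb =>
    intro r hr
    rw [map_add, Matrix.add_mulVec]
    exact T.colOK_add (ha _ hr) (hb _ hr)

theorem X_pow {p : C} (hp : p ∈ T.PX) (n : ℕ) : p * T.τ ^ n ∈ T.PX := by
  induction n with
  | zero => rwa [pow_zero, mul_one]
  | succ n ih => rw [pow_succ, ← mul_assoc]; exact T.X_τ _ ih

theorem Y_pow {p : C} (hp : p ∈ T.PY) (n : ℕ) : p * T.τ' ^ n ∈ T.PY := by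
  induction n with
  | zero => rwa [pow_zero, mul_one]
  | succ n ih => rw [pow_succ, ← mul_assoc]; exact T.Y_τ' _ ih

theorem T1_aux {p q : C} (hp : p ∈ T.PX) (hq : q ∈ T.PY) (r : M.Rel) (a b : ℕ) :
    T.θ (p * (T.τ ^ a * rval M T.x T.y T.lt r * T.τ' ^ b) * (T.s * q)) = 0 := by
  rw [show p * (T.τ ^ a * rval M T.x T.y T.lt r * T.τ' ^ b) * (T.s * q) =
      (p * T.τ ^ a) * (q * T.τ' ^ b) * T.s * rval M T.x T.y T.lt r by ring]
  exact T.hrel _ (T.X_pow hp a) _ (T.Y_pow hq b) _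

theorem T1 {r c : C} (hr : r ∈ T.PX ⊔ T.sC) (hc : c ∈ T.SY) :
    T.θ (r * ((ζ T.τ T.τ' 2 - ζ T.τ T.τ' 1) * rhoval M T.x T.y T.τ T.τ' T.lt) * c) = 0 := by
  obtain ⟨q, hq, rfl⟩ := T.mem_SY.mp hc
  obtain ⟨p, hp, b, hb, rfl⟩ := Submodule.mem_sup.mp hr
  obtain ⟨b', rfl⟩ := T.mem_sC.mp hb
  have e : (p + T.s * b') * ((ζ T.τ T.τ' 2 - ζ T.τ T.τ' 1) * rhoval M T.x T.y T.τ T.τ' T.lt) *
      (T.s * q) = p * ((ζ T.τ T.τ' 2 - ζ T.τ T.τ' 1) * rhoval M T.x T.y T.τ T.τ' T.lt) * (T.s * q)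
      + (T.s * T.s) * (b' * ((ζ T.τ T.τ' 2 - ζ T.τ T.τ' 1) *
        rhoval M T.x T.y T.τ T.τ' T.lt) * q) := by ring
  rw [e, T.hs, zero_mul, add_zero]
  have h : ζ T.τ T.τ' 2 - ζ T.τ T.τ' 1 = 1 + T.τ' - T.τ := by
    change (2 + T.τ') - (1 + T.τ) = _
    ring
  rw [h]
  unfold rhoval
  simp only [Finset.mul_sum, Finset.sum_mul]
  rw [map_sum]
  refine Finset.sum_eq_zero fun r _ => ?_
  have e : p * ((1 + T.τ' - T.τ) * (T.τ ^ (r : ℕ) *
      rval M T.x T.y T.lt (M.num.symm r) * T.τ' ^ (M.S - 1 - r))) * (T.s * q) =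
      p * (T.τ ^ (r : ℕ) *
      rval M T.x T.y T.lt (M.num.symm r) * T.τ' ^ (M.S - 1 - r)) * (T.s * q) +
      p * (T.τ ^ (r : ℕ) *
      rval M T.x T.y T.lt (M.num.symm r) * T.τ' ^ (M.S - 1 - r)) * (T.s * (q * T.τ')) -
      (p * T.τ) * (T.τ ^ (r : ℕ) *
      rval M T.x T.y T.lt (M.num.symm r) * T.τ' ^ (M.S - 1 - r)) * (T.s * q) := by
    ring
  rw [e, map_sub, map_add, T.T1_aux hp hq, T.T1_aux hp (T.Y_τ' _ hq), T.T1_aux (T.X_τ _ hp) hq]
  simp

theorem T2 {r c : C} (hr : r ∈ T.K1 ⊔ T.sC) (hc : c ∈ T.SY) :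
    T.θ (r * ((2 + T.τ') * (T.τ ^ (M.S - 1) * (T.lt M.gu - T.lt M.gu'))) * c) = 0 := by
  obtain ⟨q, hq, rfl⟩ := T.mem_SY.mp hc
  obtain ⟨a, ha, b, hb, rfl⟩ := Submodule.mem_sup.mp hr
  obtain ⟨b', rfl⟩ := T.mem_sC.mp hb
  obtain ⟨k, rfl⟩ := Submodule.mem_span_singleton.mp ha
  have e : (k • (1 : C) + T.s * b') * ((2 + T.τ') * (T.τ ^ (M.S - 1) * (T.lt M.gu - T.lt M.gu'))) *
      (T.s * q) =
      k • (T.τ ^ (M.S - 1) * q * T.s * (T.lt M.gu - T.lt M.gu')) +
      k • (T.τ ^ (M.S - 1) * q * T.s * (T.lt M.gu - T.lt M.gu')) +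
      k • (T.τ ^ (M.S - 1) * (q * T.τ') * T.s * (T.lt M.gu - T.lt M.gu')) +
      (T.s * T.s) * (b' * ((2 + T.τ') * (T.τ ^ (M.S - 1) * (T.lt M.gu - T.lt M.gu'))) * q) := by
    rw [add_mul, add_mul, smul_mul_assoc, smul_mul_assoc, ← smul_add, ← smul_add]
    congr 1
    · congr 1
      ring
    · ring
  rw [e, T.hs, zero_mul, add_zero, map_add, map_add, map_smul, map_smul, T.hleft _ hq,
    T.hleft _ (T.Y_τ' _ hq)]
  simp

theorem T3 {r c : C} (hr : r ∈ T.PX ⊔ T.sC) (hc : c ∈ T.K1 ⊔ T.sC) :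
    T.θ (r * ((1 + T.τ) * ((T.lt M.gw - T.lt M.gw') * T.τ' ^ (M.S - 1) * T.s)) * c) = 0 := by
  obtain ⟨p, hp, b, hb, rfl⟩ := Submodule.mem_sup.mp hr
  obtain ⟨b', rfl⟩ := T.mem_sC.mp hb
  obtain ⟨c1, hc1, c2, hc2, rfl⟩ := Submodule.mem_sup.mp hc
  obtain ⟨c', rfl⟩ := T.mem_sC.mp hc2
  obtain ⟨k, rfl⟩ := Submodule.mem_span_singleton.mp hc1
  have e : (p + T.s * b') * ((1 + T.τ) * ((T.lt M.gw - T.lt M.gw') * T.τ' ^ (M.S - 1) * T.s)) *
      (k • (1 : C) + T.s * c') =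
      k • (p * T.τ' ^ (M.S - 1) * T.s * (T.lt M.gw - T.lt M.gw')) +
      k • ((p * T.τ) * T.τ' ^ (M.S - 1) * T.s * (T.lt M.gw - T.lt M.gw')) +
        (T.s * T.s) * (k • (b' * ((1 + T.τ) * ((T.lt M.gw - T.lt M.gw') * T.τ' ^ (M.S - 1)))) +
        (p + T.s * b') * ((1 + T.τ) * ((T.lt M.gw - T.lt M.gw') * T.τ' ^ (M.S - 1))) * c') := by
    rw [mul_add ((p + T.s * b') * ((1 + T.τ) * ((T.lt M.gw - T.lt M.gw') * T.τ' ^ (M.S - 1) * T.s))),
      mul_smul_comm, mul_one]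
    have : T.s * T.s * (k • (b' * ((1 + T.τ) * ((T.lt M.gw - T.lt M.gw') * T.τ' ^ (M.S - 1)))) +
        (p + T.s * b') * ((1 + T.τ) * ((T.lt M.gw - T.lt M.gw') * T.τ' ^ (M.S - 1))) * c') =
      k • (T.s * T.s * (b' * ((1 + T.τ) * ((T.lt M.gw - T.lt M.gw') * T.τ' ^ (M.S - 1))))) +
        T.s * T.s * ((p + T.s * b') *
          ((1 + T.τ) * ((T.lt M.gw - T.lt M.gw') * T.τ' ^ (M.S - 1))) * c') := by
      rw [mul_add, mul_smul_comm]
    rw [this, ← add_assoc, ← smul_add, ← smul_add]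
    congr 1
    · congr 1
      ring
    · ring
  rw [e, T.hs, zero_mul, add_zero, map_add, map_smul, map_smul, T.hright _ hp,
    T.hright _ (T.X_τ _ hp)]
  simp

theorem entry00 (P R : Matrix (Fin 3) (Fin 3) C) (c1 c2 c3 : C) :
    (P * (single 1 2 c1 + single 0 2 c2 - single 1 0 c3) * R : Matrix (Fin 3) (Fin 3) C) 0 0 =
      P 0 1 * c1 * R 2 0 + P 0 0 * c2 * R 2 0 - P 0 1 * c3 * R 0 0 := by
  rw [mul_sub, mul_add, sub_mul, add_mul, Matrix.sub_apply, Matrix.add_apply]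
  have h : ∀ (i j : Fin 3) (c : C),
      (P * single i j c * R : Matrix (Fin 3) (Fin 3) C) 0 0 = P 0 i * c * R j 0 := by
    intro i j c
    rw [Matrix.mul_apply, Finset.sum_eq_single j]
    · rw [Matrix.mul_single_apply_same]
    · intro b _ hb
      rw [Matrix.mul_single_apply_of_ne _ _ _ _ _ hb, zero_mul]
    · intro h; exact absurd (Finset.mem_univ _) h
  rw [h, h, h]

/-- the relator in the free algebra -/
noncomputable def frel (M : Mach) (F : Type*) [Field F] (D : ℕ) (E : Fin 3 → Polynomial ℤ) :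
    FreeAlgebra F M.Gen :=
  relator M (FreeAlgebra.ι F) (idem F D E (FreeAlgebra.ι F M.gz))

/-- the test element in the free algebra -/
noncomputable def ftest (M : Mach) (F : Type*) [Field F] (D : ℕ) (E : Fin 3 → Polynomial ℤ)
    (N : ℕ) : FreeAlgebra F M.Gen :=
  test M (FreeAlgebra.ι F) (idem F D E (FreeAlgebra.ι F M.gz)) N

theorem φ_idem [CharZero F] (K D : ℕ) (hK : 0 < K) (hD : D ≠ 0) (E : Fin 3 → Polynomial ℤ)
    (hE : ∀ i k : Fin 3, Pp F M.S k ^ K ∣
      (E i).map (Int.castRingHom F) - Polynomial.C (if i = k then (D : F) else 0)) (i : Fin 3) :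
    T.φ (idem F D E (FreeAlgebra.ι F M.gz) i) = E3 i := by
  rw [map_idem, φ, FreeAlgebra.lift_ι_apply]
  have := idem_mat M.S K D hK hD E hE T.τ T.τ' T.hτ T.hτ'
  exact congrFun this i

theorem φ_frel [CharZero F] (K D : ℕ) (hK : 0 < K) (hD : D ≠ 0) (E : Fin 3 → Polynomial ℤ)
    (hE : ∀ i k : Fin 3, Pp F M.S k ^ K ∣
      (E i).map (Int.castRingHom F) - Polynomial.C (if i = k then (D : F) else 0))
    (a b : FreeAlgebra F M.Gen) : T.θ (T.φ (a * frel M F D E * b) 0 0) = 0 := by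
  have h1 : T.φ (frel M F D E) = relator M T.mt E3 := by
    unfold frel
    have := map_relator M T.φ.toRingHom (FreeAlgebra.ι F) (idem F D E (FreeAlgebra.ι F M.gz))
    change T.φ _ = _ at this
    rw [this]
    congr 1
    · funext g
      change FreeAlgebra.lift F T.mt (FreeAlgebra.ι F g) = _
      rw [FreeAlgebra.lift_ι_apply]
    · funext i
      exact T.φ_idem K D hK hD E hE i
  rw [map_mul, map_mul, h1, mt, relator_mat _ _ _ _ _ _ _ T.hτ T.hτ', entry00, map_sub, map_add]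
  have e0 : T.rowOK (Pi.single 0 1) := by
    refine ⟨?_, ?_⟩
    · rw [Pi.single_eq_same]; exact Submodule.mem_sup_left (Submodule.subset_span rfl)
    · rw [Pi.single_eq_of_ne (by decide)]; exact Submodule.zero_mem _
  have e1 : T.colOK (Pi.single 0 1) := by
    refine ⟨?_, ?_, ?_⟩
    · rw [Pi.single_eq_same]; exact Submodule.mem_sup_left (Submodule.subset_span rfl)
    · rw [Pi.single_eq_of_ne (by decide)]; exact Submodule.zero_mem _
    · rw [Pi.single_eq_of_ne (by decide)]; exact Submodule.zero_mem _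
  have h2 := T.rowOK_φ a _ e0
  have h3 := T.colOK_φ b _ e1
  have h4 : ∀ j, (Pi.single 0 1 ᵥ* T.φ a) j = T.φ a 0 j := by
    intro j; rw [Matrix.single_one_vecMul]; rfl
  have h5 : ∀ j, (T.φ b *ᵥ Pi.single 0 1) j = T.φ b j 0 := by
    intro j; rw [Matrix.mulVec_single_one]; rfl
  unfold rowOK at h2
  unfold colOK at h3
  rw [h4, h4] at h2
  rw [h5, h5, h5] at h3
  rw [T.T1 h2.2 h3.2.2, T.T2 h2.1 h3.2.2, T.T3 h2.2 h3.1]
  simp

/-- the ideal given by the functional -/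
noncomputable def J : TwoSidedIdeal (FreeAlgebra F M.Gen) :=
  TwoSidedIdeal.mk' {g | ∀ a b, T.θ (T.φ (a * g * b) 0 0) = 0}
    (by intro a b; simp)
    (by
      intro x y hx hy a b
      rw [mul_add, add_mul, map_add, Matrix.add_apply, map_add, hx, hy, add_zero])
    (by
      intro x hx a b
      rw [mul_neg, neg_mul, map_neg, Matrix.neg_apply, map_neg, hx, neg_zero])
    (by
      intro x y hy a b
      rw [show a * (x * y) * b = (a * x) * y * b by rw [mul_assoc a x y]]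
      exact hy _ _)
    (by
      intro x y hx a b
      rw [show a * (x * y) * b = a * x * (y * b) by simp only [mul_assoc]]
      exact hx _ _)

theorem mem_J (g : FreeAlgebra F M.Gen) : g ∈ T.J ↔ ∀ a b, T.θ (T.φ (a * g * b) 0 0) = 0 := by
  unfold J
  rw [TwoSidedIdeal.mem_mk']
  rfl

theorem test_not_mem [CharZero F] (K D : ℕ) (hK : 0 < K) (hD : D ≠ 0) (E : Fin 3 → Polynomial ℤ)
    (hE : ∀ i k : Fin 3, Pp F M.S k ^ K ∣
      (E i).map (Int.castRingHom F) - Polynomial.C (if i = k then (D : F) else 0))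
    (I : Set (FreeAlgebra F M.Gen)) (hI : ∀ g ∈ I, ∀ a b, T.φ (a * g * b) 0 0 = 0) (N : ℕ)
    (hN : T.θ (T.τ ^ (M.S - 1) * T.lt (M.gγ M.q0) * T.τ' ^ (M.S - 1) * T.y ^ N * T.s) ≠ 0) :
    ftest M F D E N ∉ TwoSidedIdeal.span (I ∪ {frel M F D E}) := by
  intro h
  have h1 : TwoSidedIdeal.span (I ∪ {frel M F D E}) ≤ T.J := by
    rw [TwoSidedIdeal.span_le]
    rintro g (hg | hg)
    · change g ∈ T.J
      rw [mem_J]
      intro a b
      rw [hI g hg, map_zero]
    · rw [Set.mem_singleton_iff] at hg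
      subst hg
      change frel M F D E ∈ T.J
      rw [mem_J]
      exact T.φ_frel K D hK hD E hE
  have h2 := (T.mem_J _).mp (h1 h) 1 1
  rw [one_mul, mul_one] at h2
  have h3 : T.φ (ftest M F D E N) = test M T.mt E3 N := by
    unfold ftest
    have := map_test M T.φ.toRingHom (FreeAlgebra.ι F) (idem F D E (FreeAlgebra.ι F M.gz)) N
    change T.φ _ = _ at this
    rw [this]
    congr 1
    · funext g
      change FreeAlgebra.lift F T.mt (FreeAlgebra.ι F g) = _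
      rw [FreeAlgebra.lift_ι_apply]
    · funext i
      exact T.φ_idem K D hK hD E hE i
  rw [h3, mt, test_mat, Matrix.single_apply_same] at h2
  exact hN h2

/-- the shape of the matrices: entries below the diagonal are multiples of `s` -/
theorem mt_lower (g : M.Gen) (i j : Fin 3) (hij : j < i) : T.s ∣ T.mt g i j := by
  rcases g with k | q | t | t
  · fin_cases k
    · change T.s ∣ diagonal (ζ T.τ T.τ') i j
      rw [Matrix.diagonal_apply_ne _ (ne_of_gt hij)]; exact dvd_zero _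
    · change T.s ∣ diagonal ![0, T.x, T.y] i j
      rw [Matrix.diagonal_apply_ne _ (ne_of_gt hij)]; exact dvd_zero _
    · change T.s ∣ single 0 1 (1 : C) i j
      rw [Matrix.single_apply, if_neg]
      · exact dvd_zero _
      · rintro ⟨rfl, rfl⟩; exact absurd hij (by decide)
    · change T.s ∣ single 2 0 T.s i j
      rw [Matrix.single_apply]
      split_ifs
      · exact dvd_rfl
      · exact dvd_zero _
    all_goals
      change T.s ∣ single 1 2 _ i j
      rw [Matrix.single_apply, if_neg]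
      · exact dvd_zero _
      · rintro ⟨rfl, rfl⟩; exact absurd hij (by decide)
  · change T.s ∣ single 1 2 _ i j
    rw [Matrix.single_apply, if_neg]
    · exact dvd_zero _
    · rintro ⟨rfl, rfl⟩; exact absurd hij (by decide)
  · change T.s ∣ single 2 2 _ i j
    rw [Matrix.single_apply, if_neg]
    · exact dvd_zero _
    · rintro ⟨rfl, rfl⟩; exact absurd hij (by decide)
  · change T.s ∣ single 1 1 _ i j
    rw [Matrix.single_apply, if_neg]
    · exact dvd_zero _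
    · rintro ⟨rfl, rfl⟩; exact absurd hij (by decide)

end TestData

end Pool.Agent.H.MP_7596fa_lc.T
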